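import Pool.Agent.N176.GP.Block
import Pool.Agent.H154R3.Task469B

/-! The integers of an interval without prime factors between `ε p` and `2 ^ (η p)`: lower bound (helper55). -/

set_option autoImplicit false

namespace Pool.Agent.T9h55.PG

open Finset Filter Topology
open Pool.Agent.N176.GP (grow half_le_div)

lemma cop_of {y z t n : ℕ} (ht0 : 0 < t) (hty : t ≤ y) (hyz : y < z)
    (hn : ∀ q : ℕ, q.Prime → q < z → ¬ q ∣ n) : Nat.Coprime t n := by
  refine Nat.Coprime.symm (Nat.Coprime.symm ?_)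
  rw [Nat.coprime_iff_gcd_eq_one]
  by_contra hcon
  obtain ⟨q, hq, hd⟩ := Nat.exists_prime_and_dvd hcon
  have h1 : q ∣ t := hd.trans (Nat.gcd_dvd_left _ _)
  have h2 : q ∣ n := hd.trans (Nat.gcd_dvd_right _ _)
  have h3 := Nat.le_of_dvd ht0 h1
  exact hn q hq (by omega) h2

open Classical in
theorem low (c₀ ε : ℝ) (hc₀ : 0 < c₀) (hε : 0 < ε) : ∃ η₀ : ℝ, 0 < η₀ ∧ ∀ η : ℝ, 0 < η → η ≤ η₀ →
    ∃ c : ℝ, 0 < c ∧ ∃ P : ℕ, ∀ p ≥ P, ∀ A H y : ℕ, Real.exp (c₀ * p) ≤ H → ε * p ≤ y → y ≤ p →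
    c * (Real.log p / p) * H ≤ #((range H).filter (fun i => ∀ l : ℕ, l.Prime → y < l → (l : ℝ) ≤ (2 : ℝ) ^ (η * p) →
      ¬ l ∣ A + i)) := by
  obtain ⟨δ, ηH, hδ, hδ1, hηH, X0, hX0, hHo⟩ := Pool.Agent.H469R10.HO.hoheisel
  obtain ⟨s, hs1, _, z₀, hz₀, hFL⟩ := Pool.Agent.H154R3.Fund.fundLemma (1 / 2) (by norm_num)
  have hs0 : (0 : ℝ) < s := by exact_mod_cast hs1
  have hs1r : (1 : ℝ) ≤ s := by exact_mod_cast hs1
  have hl2 : 0 < Real.log 2 := Real.log_pos (by norm_num)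
  refine ⟨c₀ / (2 * s * Real.log 2), by positivity, fun η hη hηη => ?_⟩
  have hηs : η * s * Real.log 2 ≤ c₀ / 2 := by
    rw [le_div_iff₀ (by positivity)] at hηη
    linarith
  set c₅ : ℝ := 2 * ηH / (3 * s) with hc₅
  have hc₅0 : 0 < c₅ := by positivity
  -- large `p`
  have hlog : Tendsto (fun p : ℕ => Real.log p) atTop atTop :=
    Real.tendsto_log_atTop.comp tendsto_natCast_atTop_atTop
  have hlin : Tendsto (fun p : ℕ => η * (p : ℝ)) atTop atTop :=
    (tendsto_natCast_atTop_atTop (R := ℝ)).const_mul_atTop hη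
  have hpow : Tendsto (fun p : ℕ => (2 : ℝ) ^ (η * (p : ℝ))) atTop atTop := by
    have h1 : (fun p : ℕ => (2 : ℝ) ^ (η * (p : ℝ))) = fun p : ℕ => Real.exp (Real.log 2 * η * p) := by
      funext p
      rw [Real.rpow_def_of_pos (by norm_num)]
      ring_nf
    rw [h1]
    exact Real.tendsto_exp_atTop.comp ((tendsto_natCast_atTop_atTop (R := ℝ)).const_mul_atTop (by positivity))
  obtain ⟨P, hP⟩ := ((grow (c₀ / 2) (4 * 2 ^ s) (by positivity)).and ((hlog.eventually_ge_atTop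
    (2 * |Real.log ε|)).and ((hlin.eventually_ge_atTop 1).and
    ((hpow.eventually_ge_atTop (z₀ + X0)).and ((grow (η * Real.log 2) 1 (by positivity)).and
      (eventually_ge_atTop 2)))))).exists_forall_of_atTop
  refine ⟨c₅ / (32 * (2 * η * Real.log 2)), by positivity, P, fun p hp A H y hH hy1 hy2 => ?_⟩
  obtain ⟨g1, g2, g3, g4, g5, g6⟩ := hP p hp
  have hp2r : (2 : ℝ) ≤ p := by exact_mod_cast g6
  have hp0 : (0 : ℝ) < p := by linarith
  obtain ⟨z, hz⟩ : ∃ z, z = ⌊(2 : ℝ) ^ (η * p)⌋₊ + 1 := ⟨_, rfl⟩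
  have hZ0 : (0 : ℝ) < (2 : ℝ) ^ (η * p) := by positivity
  have hz1 : (z : ℝ) ≤ 2 * (2 : ℝ) ^ (η * p) := by
    rw [hz]
    push_cast
    have h1 := Nat.floor_le hZ0.le
    have h2 : (1 : ℝ) ≤ (2 : ℝ) ^ (η * p) := Real.one_le_rpow (by norm_num) (by positivity)
    linarith
  have hz2 : (2 : ℝ) ^ (η * p) < z := by
    rw [hz]
    push_cast
    exact Nat.lt_floor_add_one _
  have hzz₀ : z₀ ≤ z := by
    have : (z₀ : ℝ) ≤ z := by
      have : (0 : ℝ) ≤ X0 := Nat.cast_nonneg _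
      linarith
    exact_mod_cast this
  have hzX0 : X0 ≤ z := by
    have : (X0 : ℝ) ≤ z := by
      have : (0 : ℝ) ≤ z₀ := Nat.cast_nonneg _
      linarith
    exact_mod_cast this
  have hz2n : 2 ≤ z := hz₀.trans hzz₀
  have hpz : p < z := by
    have h1 : (p : ℝ) ≤ (p : ℝ) ^ 2 := by nlinarith
    have h2 : Real.exp (η * Real.log 2 * p) = (2 : ℝ) ^ (η * p) := by
      rw [Real.rpow_def_of_pos (by norm_num)]
      ring_nf
    rw [h2, one_mul] at g5
    have : (p : ℝ) < z := by linarith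
    exact_mod_cast this
  have hyz : y < z := by omega
  obtain ⟨V, hV0, hV2, hV⟩ := hFL z hzz₀
  have hzR : (2 : ℝ) ≤ z := by exact_mod_cast hz2n
  have hlz : 0 < Real.log z := Real.log_pos (by linarith)
  have hκ : (1 / 2 : ℝ) / (s : ℝ) ^ 8 * V ≤ V / 2 := by
    have h1 : (1 : ℝ) ≤ (s : ℝ) ^ 8 := one_le_pow₀ hs1r
    have h2 : (1 / 2 : ℝ) / (s : ℝ) ^ 8 ≤ 1 / 2 := by
      rw [div_le_iff₀ (by positivity)]
      linarith
    calc (1 / 2 : ℝ) / (s : ℝ) ^ 8 * V ≤ 1 / 2 * V := mul_le_mul_of_nonneg_right h2 hV0.le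
      _ = V / 2 := by ring
  -- lower bound for `V`
  have hVlow : c₅ / Real.log z ≤ V := by
    have hzs : (z : ℝ) ^ s ≠ 0 := by positivity
    have hzs1 : z ≤ z ^ s := Nat.le_self_pow (by omega) z
    have h1 := hV (z ^ s) (z ^ s) le_rfl
    have h2 := hHo (z ^ s) (z ^ s) (by omega) (by
      have h3 : (1 : ℝ) ≤ ((z ^ s : ℕ) : ℝ) := by exact_mod_cast Nat.one_le_pow _ _ (by omega)
      calc (((z ^ s : ℕ) : ℝ)) ^ (1 - δ) ≤ (((z ^ s : ℕ) : ℝ)) ^ (1 : ℝ) :=
            Real.rpow_le_rpow_of_exponent_le h3 (by linarith)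
        _ = _ := Real.rpow_one _) le_rfl
    have h3 : (((Ioc (z ^ s) (z ^ s + z ^ s)).filter Nat.Prime).card : ℝ) ≤
        (((Ioc (z ^ s) (z ^ s + z ^ s)).filter (fun n => ∀ p : ℕ, p.Prime → p < z → ¬ p ∣ n)).card : ℝ) := by
      have hsub : (Ioc (z ^ s) (z ^ s + z ^ s)).filter Nat.Prime ⊆
          (Ioc (z ^ s) (z ^ s + z ^ s)).filter (fun n => ∀ p : ℕ, p.Prime → p < z → ¬ p ∣ n) := by
        intro n hn
        rw [mem_filter, mem_Ioc] at hn ⊢
        refine ⟨hn.1, fun q hq hqz hd => ?_⟩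
        have := (Nat.prime_dvd_prime_iff_eq hq hn.2).1 hd
        omega
      exact_mod_cast Finset.card_le_card hsub
    have h4 := (abs_le.1 h1).2
    have hlzs : Real.log ((z ^ s : ℕ) : ℝ) = s * Real.log z := by
      push_cast
      rw [Real.log_pow]
    rw [hlzs] at h2
    have h5 : (0 : ℝ) < ((z ^ s : ℕ) : ℝ) := by
      have : 0 < z ^ s := by positivity
      exact_mod_cast this
    have h6 : ηH * ((z ^ s : ℕ) : ℝ) / (s * Real.log z) ≤ 3 / 2 * V * ((z ^ s : ℕ) : ℝ) := by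
      have h7 : (1 / 2 : ℝ) / (s : ℝ) ^ 8 * V * ((z ^ s : ℕ) : ℝ) ≤ V / 2 * ((z ^ s : ℕ) : ℝ) :=
        mul_le_mul_of_nonneg_right hκ h5.le
      linarith
    rw [div_le_iff₀ (by positivity)] at h6
    have h8 : ηH ≤ 3 / 2 * V * (s * Real.log z) := by
      have h9 : ηH * ((z ^ s : ℕ) : ℝ) ≤ (3 / 2 * V * (s * Real.log z)) * ((z ^ s : ℕ) : ℝ) := by linarith
      exact le_of_mul_le_mul_right h9 h5
    rw [hc₅, div_div, div_le_iff₀ (by positivity)]
    linarith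
  have hH0 : (0 : ℝ) < H := lt_of_lt_of_le (Real.exp_pos _) hH
  have hHpos : 0 < H := by exact_mod_cast hH0
  -- the size of `z ^ s`
  have hzsH : 4 * (z : ℝ) ^ s * p ≤ H := by
    refine le_trans ?_ hH
    have h1 : (z : ℝ) ^ s ≤ 2 ^ s * Real.exp (c₀ / 2 * p) := by
      calc (z : ℝ) ^ s ≤ (2 * (2 : ℝ) ^ (η * p)) ^ s := pow_le_pow_left₀ (by positivity) hz1 s
        _ = 2 ^ s * ((2 : ℝ) ^ (η * p)) ^ s := mul_pow _ _ _
        _ = 2 ^ s * Real.exp (η * s * Real.log 2 * p) := by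
            rw [← Real.rpow_natCast ((2 : ℝ) ^ (η * p)), ← Real.rpow_mul (by norm_num),
              Real.rpow_def_of_pos (by norm_num)]
            ring_nf
        _ ≤ 2 ^ s * Real.exp (c₀ / 2 * p) := by gcongr
    have h2 : Real.exp (c₀ * p) = Real.exp (c₀ / 2 * p) * Real.exp (c₀ / 2 * p) := by
      rw [← Real.exp_add]
      ring_nf
    rw [h2]
    calc 4 * (z : ℝ) ^ s * p ≤ 4 * (2 ^ s * Real.exp (c₀ / 2 * p)) * p := by gcongr
      _ = (4 * 2 ^ s * p) * Real.exp (c₀ / 2 * p) := by ring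
      _ ≤ (4 * 2 ^ s * (p : ℝ) ^ 2) * Real.exp (c₀ / 2 * p) := by
          gcongr
          nlinarith
      _ ≤ _ := mul_le_mul_of_nonneg_right g1 (Real.exp_pos _).le
  -- the union
  set G : ℕ → Finset ℕ := fun t => (Ioc (A / t) (A / t + H / (2 * t))).filter
    (fun n => ∀ q : ℕ, q.Prime → q < z → ¬ q ∣ n) with hG
  have hcount : ∀ t ∈ Icc 1 y, V / 2 * ((H : ℝ) / (4 * t)) ≤ #(G t) := by
    intro t ht
    rw [mem_Icc] at ht
    have ht0 : (0 : ℝ) < t := by exact_mod_cast ht.1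
    have htp : (t : ℝ) ≤ p := by exact_mod_cast ht.2.trans hy2
    have h1 : 2 * t ≤ H := by
      have : ((2 * t : ℕ) : ℝ) ≤ H := by
        push_cast
        refine le_trans ?_ hzsH
        have : (1 : ℝ) ≤ (z : ℝ) ^ s := one_le_pow₀ (by linarith)
        nlinarith
      exact_mod_cast this
    have h2 : (H : ℝ) / (4 * t) ≤ ((H / (2 * t) : ℕ) : ℝ) := half_le_div ht.1 h1
    have h3 : z ^ s ≤ H / (2 * t) := by
      have h4 : (z : ℝ) ^ s ≤ (H : ℝ) / (4 * t) := by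
        rw [le_div_iff₀ (by positivity)]
        calc (z : ℝ) ^ s * (4 * t) ≤ (z : ℝ) ^ s * (4 * p) := by gcongr
          _ = 4 * (z : ℝ) ^ s * p := by ring
          _ ≤ H := hzsH
      have : ((z ^ s : ℕ) : ℝ) ≤ ((H / (2 * t) : ℕ) : ℝ) := by
        push_cast
        push_cast at h2
        exact h4.trans h2
      exact_mod_cast this
    have h4 := (abs_le.1 (hV (A / t) (H / (2 * t)) h3)).1
    have h5 : (1 / 2 : ℝ) / (s : ℝ) ^ 8 * V * ((H / (2 * t) : ℕ) : ℝ) ≤ V / 2 * ((H / (2 * t) : ℕ) : ℝ) :=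
      mul_le_mul_of_nonneg_right hκ (Nat.cast_nonneg _)
    have h6 : V / 2 * ((H / (2 * t) : ℕ) : ℝ) ≤ #(G t) := by
      simp only [hG]
      linarith
    exact (mul_le_mul_of_nonneg_left h2 (by positivity)).trans h6
  have hinj : ∑ t ∈ Icc 1 y, #(G t) ≤ #((range H).filter (fun i => ∀ l : ℕ, l.Prime → y < l →
      (l : ℝ) ≤ (2 : ℝ) ^ (η * p) → ¬ l ∣ A + i)) := by
    rw [← Finset.card_sigma]
    have hfacts : ∀ x ∈ (Icc 1 y).sigma G, 1 ≤ x.1 ∧ x.1 ≤ y ∧ A < x.1 * x.2 ∧ x.1 * x.2 < A + H ∧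
        ∀ q : ℕ, q.Prime → q < z → ¬ q ∣ x.2 := by
      rintro ⟨t, n⟩ hx
      rw [mem_sigma, mem_Icc] at hx
      obtain ⟨⟨ht1, ht2⟩, hn⟩ := hx
      simp only [hG] at hn
      rw [mem_filter, mem_Ioc] at hn
      obtain ⟨⟨hn1, hn2⟩, hn3⟩ := hn
      simp only at ht1 ht2 hn1 hn2 hn3 ⊢
      refine ⟨ht1, ht2, ?_, ?_, hn3⟩
      · have h1 : A < t * (A / t + 1) := Nat.lt_mul_div_succ A (by omega)
        exact h1.trans_le (Nat.mul_le_mul_left t hn1)
      · have h1 : t * n ≤ t * (A / t + H / (2 * t)) := Nat.mul_le_mul_left t hn2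
        have h2 : t * (A / t) ≤ A := Nat.mul_div_le A t
        have h3 : 2 * t * (H / (2 * t)) ≤ H := Nat.mul_div_le H (2 * t)
        rw [mul_add] at h1
        have h4 : 2 * (t * (H / (2 * t))) ≤ H := by
          calc 2 * (t * (H / (2 * t))) = 2 * t * (H / (2 * t)) := by ring
            _ ≤ H := h3
        omega
    refine Finset.card_le_card_of_injOn (fun x => x.1 * x.2 - A) ?_ ?_
    · intro x hx
      obtain ⟨h1, h2, h3, h4, h5⟩ := hfacts x hx
      rw [Finset.mem_coe, mem_filter, mem_range]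
      dsimp only
      refine ⟨by omega, fun l hl hyl hlz hd => ?_⟩
      have e : A + (x.1 * x.2 - A) = x.1 * x.2 := by omega
      rw [e] at hd
      rcases (Nat.Prime.dvd_mul hl).1 hd with h6 | h6
      · have := Nat.le_of_dvd (by omega) h6
        omega
      · refine h5 l hl ?_ h6
        have : (l : ℝ) < z := hlz.trans_lt hz2
        exact_mod_cast this
    · intro x hx x' hx' hxx
      obtain ⟨h1, h2, h3, h4, h5⟩ := hfacts x hx
      obtain ⟨h1', h2', h3', h4', h5'⟩ := hfacts x' hx'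
      simp only at hxx
      have h6 : x.1 * x.2 = x'.1 * x'.2 := by omega
      have c1 := cop_of (by omega) h2 hyz h5'
      have c2 := cop_of (by omega) h2' hyz h5
      have d1 : x.1 ∣ x'.1 := by
        have : x.1 ∣ x'.1 * x'.2 := h6 ▸ Dvd.intro _ rfl
        exact c1.dvd_of_dvd_mul_right this
      have d2 : x'.1 ∣ x.1 := by
        have : x'.1 ∣ x.1 * x.2 := h6 ▸ Dvd.intro _ rfl
        exact c2.dvd_of_dvd_mul_right this
      have e1 : x.1 = x'.1 := Nat.dvd_antisymm d1 d2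
      have e2 : x.2 = x'.2 := by
        rw [e1] at h6
        exact Nat.eq_of_mul_eq_mul_left (by omega) h6
      exact Sigma.ext e1 (heq_of_eq e2)
  have hharm : Real.log p / 2 ≤ ∑ t ∈ Icc 1 y, (t : ℝ)⁻¹ := by
    have hyR : (0 : ℝ) < y := lt_of_lt_of_le (by positivity) hy1
    have h1 := log_add_one_le_harmonic y
    have h2 : Real.log y ≤ Real.log ((y : ℝ) + 1) := Real.log_le_log hyR (by linarith)
    rw [harmonic_eq_sum_Icc] at h1
    push_cast at h1
    have h3 : Real.log (ε * p) ≤ Real.log y := Real.log_le_log (by positivity) hy1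
    rw [Real.log_mul hε.ne' hp0.ne'] at h3
    have h4 := neg_abs_le (Real.log ε)
    linarith
  have hlzp : Real.log z ≤ 2 * η * Real.log 2 * p := by
    have h1 : Real.log z ≤ Real.log (2 * (2 : ℝ) ^ (η * p)) := Real.log_le_log (by linarith) hz1
    rw [Real.log_mul (by norm_num) (by positivity), Real.log_rpow (by norm_num)] at h1
    have h2 : Real.log 2 ≤ η * p * Real.log 2 := by nlinarith
    linarith
  have hlp : 0 ≤ Real.log p := Real.log_natCast_nonneg p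
  calc c₅ / (32 * (2 * η * Real.log 2)) * (Real.log p / p) * H
      = c₅ / (2 * η * Real.log 2 * p) / 2 * (H / 4) * (Real.log p / 2) / 2 := by
        field_simp
        ring
    _ ≤ c₅ / Real.log z / 2 * (H / 4) * (Real.log p / 2) / 2 := by gcongr
    _ ≤ V / 2 * (H / 4) * (Real.log p / 2) / 2 := by gcongr
    _ ≤ V / 2 * (H / 4) * (Real.log p / 2) := by
        have : 0 ≤ V / 2 * (H / 4) * (Real.log p / 2) := by positivity
        linarith
    _ ≤ V / 2 * (H / 4) * ∑ t ∈ Icc 1 y, (t : ℝ)⁻¹ := by gcongr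
    _ = ∑ t ∈ Icc 1 y, V / 2 * ((H : ℝ) / (4 * t)) := by
        rw [Finset.mul_sum]
        refine Finset.sum_congr rfl fun t ht => ?_
        rw [mem_Icc] at ht
        have ht0 : (0 : ℝ) < t := by exact_mod_cast ht.1
        field_simp
    _ ≤ ∑ t ∈ Icc 1 y, (#(G t) : ℝ) := Finset.sum_le_sum hcount
    _ ≤ _ := by exact_mod_cast hinj

end Pool.Agent.T9h55.PG
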