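import Pool.Agent.T9h55.PF.It

/-! Events attached to the exponents and the first digits: the conditions, and a dyadic block of exponents, given the
first digits (helper55). -/

set_option autoImplicit false

namespace Pool.Agent.T9h55.PG

open Finset Filter Topology
open Pool.Agent.N176.GP (sum_cells sum_div card_primes log_div_le)
open Pool.Agent.T9h55.PF (vv vv_nonneg)

/-- the conditions: `X p n` is the indicator of the event of the exponent `p`, `n` is the integer with the first `k p`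
digits -/
structure Sys (X : ℕ → ℕ → ℝ) (k : ℕ → ℕ) (ε c C : ℝ) (c₂ N₀ : ℕ) : Prop where
  zero_one : ∀ p n, X p n = 0 ∨ X p n = 1
  hi : ∀ p ≥ N₀, p.Prime → k p ≤ c₂ * p
  mono : ∀ p ≥ N₀, ∀ q ≥ p, p.Prime → q.Prime → k p ≤ k q
  geo : ∀ p ≥ N₀, p.Prime → ∀ T : Finset ℕ, (∀ q ∈ T, N₀ ≤ q ∧ q.Prime) →
    ∑ q ∈ T, ((2 : ℝ) ^ ((k p - k q) + (k q - k p)))⁻¹ ≤ C
  one : ∀ x ≥ N₀, ∀ p, p.Prime → x < p → p ≤ 2 * x → ∀ z : ℕ, (z : ℝ) ≤ ε * x → ∀ j < 2 ^ z, z ≤ k p ∧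
    c * (Real.log x / x) * (2 : ℝ) ^ (k p - z) ≤
      ∑ n ∈ Ico (j * 2 ^ (k p - z)) ((j + 1) * 2 ^ (k p - z)), X p n ∧
    ∑ n ∈ Ico (j * 2 ^ (k p - z)) ((j + 1) * 2 ^ (k p - z)), X p n ≤ C * (Real.log x / x) * (2 : ℝ) ^ (k p - z)
  two : ∀ x ≥ N₀, ∀ p q, p.Prime → q.Prime → x < p → p < q → q ≤ 2 * x → ∀ z : ℕ, (z : ℝ) ≤ ε * x → ∀ j < 2 ^ z,
    ∑ n ∈ Ico (j * 2 ^ (k q - z)) ((j + 1) * 2 ^ (k q - z)), X p (n / 2 ^ (k q - k p)) * X q n ≤
      C * ((Real.log x / x) ^ 2 + ((2 : ℝ) ^ (k q - k p))⁻¹ * (Real.log x / x)) * (2 : ℝ) ^ (k q - z)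

/-- the number of the indices in `T`; `n` has the level `t` -/
noncomputable def HH (X : ℕ → ℕ → ℝ) (k : ℕ → ℕ) (T : Finset ℕ) (t n : ℕ) : ℝ := ∑ p ∈ T, X p (n / 2 ^ (t - k p))

lemma sum_one' {X : ℕ → ℕ → ℝ} {k : ℕ → ℕ} {p z j t : ℕ} (hzp : z ≤ k p) (hpt : k p ≤ t) :
    ∑ n ∈ Ico (j * 2 ^ (t - z)) ((j + 1) * 2 ^ (t - z)), X p (n / 2 ^ (t - k p)) =
      (2 : ℝ) ^ (t - k p) * ∑ n ∈ Ico (j * 2 ^ (k p - z)) ((j + 1) * 2 ^ (k p - z)), X p n := by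
  have e : 2 ^ (t - z) = 2 ^ (k p - z) * 2 ^ (t - k p) := by rw [← pow_add]; congr 1; omega
  rw [e, ← mul_assoc, ← mul_assoc, sum_div _ _ _ (by positivity) (Nat.mul_le_mul_right _ (Nat.le_succ j))
    (fun m => X p m)]
  push_cast
  rfl

lemma sum_two' {X : ℕ → ℕ → ℝ} {k : ℕ → ℕ} {p q z j t : ℕ} (hzp : z ≤ k q) (hpq : k p ≤ k q) (hqt : k q ≤ t) :
    ∑ n ∈ Ico (j * 2 ^ (t - z)) ((j + 1) * 2 ^ (t - z)),
      X p (n / 2 ^ (t - k p)) * X q (n / 2 ^ (t - k q)) =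
      (2 : ℝ) ^ (t - k q) * ∑ n ∈ Ico (j * 2 ^ (k q - z)) ((j + 1) * 2 ^ (k q - z)),
        X p (n / 2 ^ (k q - k p)) * X q n := by
  have e : 2 ^ (t - z) = 2 ^ (k q - z) * 2 ^ (t - k q) := by rw [← pow_add]; congr 1; omega
  have e2 : 2 ^ (t - k p) = 2 ^ (t - k q) * 2 ^ (k q - k p) := by rw [← pow_add]; congr 1; omega
  rw [e, ← mul_assoc, ← mul_assoc, e2]
  simp only [← Nat.div_div_eq_div_mul]
  rw [sum_div _ _ _ (by positivity) (Nat.mul_le_mul_right _ (Nat.le_succ j))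
    (fun m => X p (m / 2 ^ (k q - k p)) * X q m)]
  push_cast
  rfl

lemma block (ε c C : ℝ) (c₂ : ℕ) (hc : 0 < c) (hC : 0 < C) :
    ∃ c' C' : ℝ, 0 < c' ∧ 0 < C' ∧ ∀ (X : ℕ → ℕ → ℝ) (k : ℕ → ℕ) (N₀ : ℕ), Sys X k ε c C c₂ N₀ → ∃ P : ℕ, ∀ x ≥ P,
    ∀ T : Finset ℕ, (∀ p ∈ T, p.Prime ∧ x < p ∧ p ≤ 2 * x) → ∀ z : ℕ, (z : ℝ) ≤ ε * x → ∀ t : ℕ, 2 * c₂ * x ≤ t →
    ∀ j < 2 ^ z,
      c' * vv T * (2 : ℝ) ^ (t - z) ≤ ∑ n ∈ Ico (j * 2 ^ (t - z)) ((j + 1) * 2 ^ (t - z)), HH X k T t n ∧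
      ∑ n ∈ Ico (j * 2 ^ (t - z)) ((j + 1) * 2 ^ (t - z)), HH X k T t n ≤ C' * vv T * (2 : ℝ) ^ (t - z) ∧
      ∑ n ∈ Ico (j * 2 ^ (t - z)) ((j + 1) * 2 ^ (t - z)), HH X k T t n ^ 2 ≤ C' * vv T * (2 : ℝ) ^ (t - z) ∧
      vv T ≤ C' := by
  classical
  obtain ⟨C₃, hC₃, hcard⟩ := card_primes
  refine ⟨c / 2, 2 * C + 2 * C * (C₃ + C) + 2 * C₃, by positivity, by positivity, fun X k N₀ D => ?_⟩
  have hXsq : ∀ p n, X p n * X p n = X p n := by
    intro p n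
    rcases D.zero_one p n with h | h <;> rw [h] <;> norm_num
  refine ⟨max 2 N₀, fun x hx T hT z hz t ht j hj => ?_⟩
  have hx2 : 2 ≤ x := (le_max_left _ _).trans hx
  have hxN : N₀ ≤ x := (le_max_right _ _).trans hx
  have hx2r : (2 : ℝ) ≤ x := by exact_mod_cast hx2
  have hx0 : (0 : ℝ) < x := by linarith
  have hlogx : 0 < Real.log x := Real.log_pos (by linarith)
  set L := Real.log x / x with hL
  have hL0 : 0 < L := by positivity
  set N := (2 : ℝ) ^ (t - z) with hN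
  have hN0 : 0 < N := by positivity
  set Ω := Ico (j * 2 ^ (t - z)) ((j + 1) * 2 ^ (t - z)) with hΩ
  have hTk : ∀ p ∈ T, z ≤ k p ∧ k p ≤ t := by
    intro p hp
    obtain ⟨q1, q2, q3⟩ := hT p hp
    have d2 := D.hi p (by omega) q1
    refine ⟨(D.one x hxN p q1 q2 q3 z hz j hj).1, ?_⟩
    calc k p ≤ c₂ * p := d2
      _ ≤ c₂ * (2 * x) := Nat.mul_le_mul_left _ q3
      _ = 2 * c₂ * x := by ring
      _ ≤ t := ht
  have hw : ∀ p ∈ T, L ≤ 2 * (Real.log p / p) ∧ Real.log p / p ≤ 2 * L := by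
    intro p hp
    obtain ⟨q1, q2, q3⟩ := hT p hp
    have hxp : (x : ℝ) ≤ p := by exact_mod_cast q2.le
    have hp2 : (p : ℝ) ≤ 2 * x := by exact_mod_cast q3
    have hp0 : (0 : ℝ) < p := by linarith
    constructor
    · have e3 : Real.log x ≤ Real.log p := Real.log_le_log hx0 hxp
      rw [hL, div_le_iff₀ hx0]
      have e4 : 2 * (Real.log p / p) * x = Real.log p * (2 * x / p) := by ring
      rw [e4]
      have e5 : 1 ≤ 2 * (x : ℝ) / p := by rwa [one_le_div hp0]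
      nlinarith
    · have := log_div_le hx2 q2 q3
      rw [hL]
      refine this.trans (le_of_eq ?_)
      ring
  have hTL : (#T : ℝ) * L ≤ C₃ := by
    calc (#T : ℝ) * L ≤ (C₃ * x / Real.log x) * L := by
          gcongr
          exact hcard x hx2 T hT
      _ = C₃ := by rw [hL]; field_simp
  have hTv : (#T : ℝ) * L ≤ 2 * vv T := by
    unfold vv
    rw [Finset.mul_sum, ← nsmul_eq_mul, ← Finset.sum_const]
    exact Finset.sum_le_sum fun p hp => (hw p hp).1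
  have hvT : vv T ≤ 2 * ((#T : ℝ) * L) := by
    unfold vv
    calc ∑ p ∈ T, Real.log p / p ≤ ∑ p ∈ T, 2 * L := Finset.sum_le_sum fun p hp => (hw p hp).2
      _ = _ := by rw [Finset.sum_const, nsmul_eq_mul]; ring
  have hv0 := vv_nonneg T
  have hNk : ∀ p ∈ T, N = (2 : ℝ) ^ (t - k p) * (2 : ℝ) ^ (k p - z) := by
    intro p hp
    obtain ⟨q2, q3⟩ := hTk p hp
    rw [hN, ← pow_add]; congr 1; omega
  -- one exponent
  have hlow : ∀ p ∈ T, c * L * N ≤ ∑ n ∈ Ω, X p (n / 2 ^ (t - k p)) := by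
    intro p hp
    obtain ⟨q2, q3⟩ := hTk p hp
    obtain ⟨r1, r2, r3⟩ := hT p hp
    rw [hΩ, sum_one' q2 q3, hNk p hp]
    have h4 := (D.one x hxN p r1 r2 r3 z hz j hj).2.1
    calc c * L * ((2 : ℝ) ^ (t - k p) * (2 : ℝ) ^ (k p - z)) =
          (2 : ℝ) ^ (t - k p) * (c * L * (2 : ℝ) ^ (k p - z)) := by ring
      _ ≤ _ := mul_le_mul_of_nonneg_left h4 (by positivity)
  have hup : ∀ p ∈ T, ∑ n ∈ Ω, X p (n / 2 ^ (t - k p)) ≤ C * L * N := by
    intro p hp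
    obtain ⟨q2, q3⟩ := hTk p hp
    obtain ⟨r1, r2, r3⟩ := hT p hp
    rw [hΩ, sum_one' q2 q3, hNk p hp]
    have h4 := (D.one x hxN p r1 r2 r3 z hz j hj).2.2
    calc _ ≤ (2 : ℝ) ^ (t - k p) * (C * L * (2 : ℝ) ^ (k p - z)) := mul_le_mul_of_nonneg_left h4 (by positivity)
      _ = _ := by ring
  -- two exponents
  have hF : ∀ p ∈ T, ∀ q ∈ T, p ≤ q →
      ∑ n ∈ Ω, X p (n / 2 ^ (t - k p)) * X q (n / 2 ^ (t - k q)) ≤
        C * (L ^ 2 + ((2 : ℝ) ^ ((k p - k q) + (k q - k p)))⁻¹ * L) * N := by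
    intro p hp q hq hpq
    obtain ⟨q2, q3⟩ := hTk p hp
    obtain ⟨q2', q3'⟩ := hTk q hq
    obtain ⟨r1, r2, r3⟩ := hT p hp
    obtain ⟨r1', r2', r3'⟩ := hT q hq
    rcases Nat.eq_or_lt_of_le hpq with h | h
    · subst h
      have e : (k p - k p) + (k p - k p) = 0 := by omega
      rw [e, pow_zero, inv_one, one_mul]
      simp only [hXsq]
      refine (hup p hp).trans ?_
      have : C * L ≤ C * (L ^ 2 + L) := by nlinarith [sq_nonneg L, mul_pos hC hL0]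
      exact mul_le_mul_of_nonneg_right this hN0.le
    · have hk := D.mono p (by omega) q h.le r1 r1'
      rw [hΩ, sum_two' q2' hk q3', hNk q hq]
      have e : (k p - k q) + (k q - k p) = k q - k p := by omega
      rw [e]
      have h6 := D.two x hxN p q r1 r1' r2 h r3' z hz j hj
      calc _ ≤ (2 : ℝ) ^ (t - k q) * (C * (L ^ 2 + ((2 : ℝ) ^ (k q - k p))⁻¹ * L) * (2 : ℝ) ^ (k q - z)) :=
            mul_le_mul_of_nonneg_left h6 (by positivity)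
        _ = C * (L ^ 2 + ((2 : ℝ) ^ (k q - k p))⁻¹ * L) * ((2 : ℝ) ^ (t - k q) * (2 : ℝ) ^ (k q - z)) := by ring
  have hF' : ∀ p ∈ T, ∀ q ∈ T,
      ∑ n ∈ Ω, X p (n / 2 ^ (t - k p)) * X q (n / 2 ^ (t - k q)) ≤
        C * (L ^ 2 + ((2 : ℝ) ^ ((k p - k q) + (k q - k p)))⁻¹ * L) * N := by
    intro p hp q hq
    rcases le_total p q with h | h
    · exact hF p hp q hq h
    · have := hF q hq p hp h
      rw [add_comm (k q - k p) (k p - k q)] at this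
      refine le_trans (le_of_eq ?_) this
      exact Finset.sum_congr rfl fun n _ => mul_comm _ _
  have hgeo : ∀ p ∈ T, ∑ q ∈ T, ((2 : ℝ) ^ ((k p - k q) + (k q - k p)))⁻¹ ≤ C := by
    intro p hp
    obtain ⟨r1, r2, r3⟩ := hT p hp
    refine D.geo p (by omega) r1 T fun q hq => ?_
    obtain ⟨r1', r2', r3'⟩ := hT q hq
    exact ⟨by omega, r1'⟩
  have hsecond : ∑ n ∈ Ω, HH X k T t n ^ 2 ≤ C * N * ((#T * L) ^ 2 + C * (#T * L)) := by
    have h1 : ∑ n ∈ Ω, HH X k T t n ^ 2 = ∑ p ∈ T, ∑ q ∈ T,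
        ∑ n ∈ Ω, X p (n / 2 ^ (t - k p)) * X q (n / 2 ^ (t - k q)) := by
      have h2 : ∀ n, HH X k T t n ^ 2 =
          ∑ p ∈ T, ∑ q ∈ T, X p (n / 2 ^ (t - k p)) * X q (n / 2 ^ (t - k q)) := by
        intro n
        unfold HH
        rw [sq, Finset.sum_mul_sum]
      simp only [h2]
      rw [Finset.sum_comm]
      refine Finset.sum_congr rfl fun p _ => ?_
      rw [Finset.sum_comm]
    rw [h1]
    calc _ ≤ ∑ p ∈ T, ∑ q ∈ T, C * (L ^ 2 + ((2 : ℝ) ^ ((k p - k q) + (k q - k p)))⁻¹ * L) * N :=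
          Finset.sum_le_sum fun p hp => Finset.sum_le_sum fun q hq => hF' p hp q hq
      _ = C * N * ∑ p ∈ T, (#T * L ^ 2 + (∑ q ∈ T, ((2 : ℝ) ^ ((k p - k q) + (k q - k p)))⁻¹) * L) := by
          rw [Finset.mul_sum]
          refine Finset.sum_congr rfl fun p _ => ?_
          rw [Finset.sum_mul, ← nsmul_eq_mul, ← Finset.sum_const, ← Finset.sum_add_distrib, Finset.mul_sum]
          refine Finset.sum_congr rfl fun q _ => by ring
      _ ≤ C * N * ∑ p ∈ T, (#T * L ^ 2 + C * L) := by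
          gcongr with p hp
          exact hgeo p hp
      _ = _ := by
          rw [Finset.sum_const, nsmul_eq_mul]; ring
  refine ⟨?_, ?_, ?_, ?_⟩
  · unfold HH
    rw [Finset.sum_comm]
    calc c / 2 * vv T * N ≤ c / 2 * (2 * ((#T : ℝ) * L)) * N := by gcongr
      _ = ∑ p ∈ T, c * L * N := by rw [Finset.sum_const, nsmul_eq_mul]; ring
      _ ≤ _ := Finset.sum_le_sum hlow
  · unfold HH
    rw [Finset.sum_comm]
    calc _ ≤ ∑ p ∈ T, C * L * N := Finset.sum_le_sum hup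
      _ = C * ((#T : ℝ) * L) * N := by rw [Finset.sum_const, nsmul_eq_mul]; ring
      _ ≤ C * (2 * vv T) * N := by gcongr
      _ = 2 * C * (vv T * N) := by ring
      _ ≤ (2 * C + 2 * C * (C₃ + C) + 2 * C₃) * (vv T * N) := by
          refine mul_le_mul_of_nonneg_right ?_ (by positivity)
          have : 0 ≤ 2 * C * (C₃ + C) := by positivity
          linarith
      _ = _ := by ring
  · refine hsecond.trans ?_
    have hTL0 : 0 ≤ (#T : ℝ) * L := by positivity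
    have e1 : ((#T : ℝ) * L) ^ 2 + C * (#T * L) ≤ (C₃ + C) * (2 * vv T) := by
      calc ((#T : ℝ) * L) ^ 2 + C * (#T * L) = (#T * L + C) * (#T * L) := by ring
        _ ≤ (C₃ + C) * (2 * vv T) := mul_le_mul (by linarith) hTv hTL0 (by linarith)
    calc C * N * (((#T : ℝ) * L) ^ 2 + C * (#T * L)) ≤ C * N * ((C₃ + C) * (2 * vv T)) := by gcongr
      _ = 2 * C * (C₃ + C) * (vv T * N) := by ring
      _ ≤ (2 * C + 2 * C * (C₃ + C) + 2 * C₃) * (vv T * N) := by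
          refine mul_le_mul_of_nonneg_right ?_ (by positivity)
          linarith [hC]
      _ = _ := by ring
  · have : 0 ≤ 2 * C + 2 * C * (C₃ + C) := by positivity
    linarith

lemma HH_div (X : ℕ → ℕ → ℝ) (k : ℕ → ℕ) (T : Finset ℕ) (t u n : ℕ) (htu : t ≤ u) (hT : ∀ p ∈ T, k p ≤ t) :
    HH X k T t (n / 2 ^ (u - t)) = HH X k T u n := by
  unfold HH
  refine Finset.sum_congr rfl fun p hp => ?_
  have h := hT p hp
  rw [Nat.div_div_eq_div_mul, ← pow_add]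
  congr 3
  omega

lemma HH_union (X : ℕ → ℕ → ℝ) (k : ℕ → ℕ) (T T' : Finset ℕ) (h : Disjoint T T') (t n : ℕ) :
    HH X k (T ∪ T') t n = HH X k T t n + HH X k T' t n := Finset.sum_union h

end Pool.Agent.T9h55.PG
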