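import Pool.Agent.T9h55.PG.G
import Pool.Agent.T9h55.PG.Lo
import Pool.Agent.T9h55.PG.S

/-! The events that `a p + M p n` has no small prime factors (helper55). -/

set_option autoImplicit false

namespace Pool.Agent.T9h55.PG

open Finset Filter Topology
open Pool.Agent.N176.GP (sum_cells)

open Classical in
/-- indicator of: all prime factors of `a p + M p n` are larger than `2 ^ (η p)` -/
noncomputable def XA (a M : ℕ → ℕ) (η : ℝ) (p n : ℕ) : ℝ :=
  if ∀ q : ℕ, q.Prime → q ∣ a p + M p * n → (2 : ℝ) ^ (η * p) < q then 1 else 0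

lemma XA_zero_one (a M : ℕ → ℕ) (η : ℝ) (p n : ℕ) : XA a M η p n = 0 ∨ XA a M η p n = 1 := by
  unfold XA
  split_ifs
  · exact Or.inr rfl
  · exact Or.inl rfl

lemma XA_nonneg (a M : ℕ → ℕ) (η : ℝ) (p n : ℕ) : 0 ≤ XA a M η p n := by
  rcases XA_zero_one a M η p n with h | h <;> rw [h] <;> norm_num

lemma XA_le_one (a M : ℕ → ℕ) (η : ℝ) (p n : ℕ) : XA a M η p n ≤ 1 := by
  rcases XA_zero_one a M η p n with h | h <;> rw [h] <;> norm_num

/-- the data -/
structure AD (a M k y : ℕ → ℕ) (c₁ ε D₀ Cg : ℝ) (c₂ N₀ : ℕ) : Prop where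
  lo : ∀ p ≥ N₀, p.Prime → c₁ * p ≤ k p
  hi : ∀ p ≥ N₀, p.Prime → k p ≤ c₂ * p
  mono : ∀ p ≥ N₀, ∀ q ≥ p, p.Prime → q.Prime → k p ≤ k q
  geo : ∀ p ≥ N₀, p.Prime → ∀ T : Finset ℕ, (∀ q ∈ T, N₀ ≤ q ∧ q.Prime) →
    ∑ q ∈ T, ((2 : ℝ) ^ ((k p - k q) + (k q - k p)))⁻¹ ≤ Cg
  fac : ∀ p ≥ N₀, p.Prime → ∀ l : ℕ, l.Prime → (l ∣ M p ↔ l ≤ y p)
  pos : ∀ p ≥ N₀, p.Prime → 0 < M p
  y1 : ∀ p ≥ N₀, p.Prime → ε * p ≤ y p
  y2 : ∀ p ≥ N₀, p.Prime → y p ≤ p
  cop : ∀ p ≥ N₀, p.Prime → Nat.Coprime (a p) (M p)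
  asz : ∀ p ≥ N₀, p.Prime → (a p : ℝ) ≤ (2 : ℝ) ^ (D₀ * p)
  msz : ∀ p ≥ N₀, p.Prime → (M p : ℝ) ≤ (2 : ℝ) ^ (D₀ * p)

/-- divisors of an arithmetic progression -/
lemma crt (a M y Z : ℕ) (hM : ∀ l : ℕ, l.Prime → (l ∣ M ↔ l ≤ y)) (B : ℕ) : ∃ A : ℕ, ∀ l : ℕ, l.Prime → y < l →
    l ≤ Z → ∀ i : ℕ, l ∣ a + M * (B + i) ↔ l ∣ A + i := by
  classical
  obtain ⟨Q, hQ⟩ : ∃ Q, Q = ∏ l ∈ (range (Z + 1)).filter (fun l => l.Prime ∧ y < l), l := ⟨_, rfl⟩
  have hcop : Nat.Coprime M Q := by
    rw [hQ]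
    refine Nat.Coprime.prod_right fun l hl => ?_
    rw [mem_filter] at hl
    rw [Nat.coprime_comm, Nat.Prime.coprime_iff_not_dvd hl.2.1]
    intro h
    have := (hM l hl.2.1).1 h
    omega
  obtain ⟨u, hu⟩ : ∃ u : ℕ, M * u ≡ 1 [MOD Q] := by
    rcases Nat.eq_zero_or_pos Q with h0 | h0
    · exfalso
      rw [hQ, Finset.prod_eq_zero_iff] at h0
      obtain ⟨l, hl, h1⟩ := h0
      rw [mem_filter] at hl
      exact hl.2.1.pos.ne' h1
    · have := Nat.exists_mul_mod_eq_one_of_coprime (k := Q) (n := M) hcop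
      rcases Nat.lt_or_ge 1 Q with h1 | h1
      · obtain ⟨u, _, hu⟩ := this h1
        refine ⟨u, ?_⟩
        unfold Nat.ModEq
        rw [hu, Nat.mod_eq_of_lt h1]
      · refine ⟨0, ?_⟩
        have : Q = 1 := by omega
        rw [this]
        exact Nat.modEq_one
  refine ⟨B + a * u, fun l hl hyl hlZ i => ?_⟩
  have hlQ : l ∣ Q := by
    rw [hQ]
    exact Finset.dvd_prod_of_mem _ (mem_filter.2 ⟨mem_range.2 (by omega), hl, hyl⟩)
  have hlM : ¬ l ∣ M := by
    intro h
    have := (hM l hl).1 h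
    omega
  have h1 : M * (B + a * u + i) ≡ a + M * (B + i) [MOD l] := by
    have h2 : M * (B + a * u + i) = a * (M * u) + M * (B + i) := by ring
    rw [h2]
    refine Nat.ModEq.add_right _ ?_
    have h3 := (hu.of_dvd hlQ).mul_left a
    rwa [mul_one] at h3
  rw [← h1.dvd_iff (dvd_refl l)]
  constructor
  · intro h
    exact ((Nat.Prime.dvd_mul hl).1 h).resolve_left hlM
  · intro h
    exact h.mul_left _

theorem sys (c₁ ε D₀ Cg : ℝ) (c₂ : ℕ) (hc₁ : 0 < c₁) (hε : 0 < ε) (hD₀ : 0 < D₀) (hCg : 0 < Cg) (hc₂ : 1 ≤ c₂) :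
    ∃ η₀ : ℝ, 0 < η₀ ∧ ∀ η : ℝ, 0 < η → η ≤ η₀ → ∃ c C : ℝ, 0 < c ∧ 0 < C ∧
    ∀ (a M k y : ℕ → ℕ) (N₀ : ℕ), AD a M k y c₁ ε D₀ Cg c₂ N₀ → ∃ N₁ : ℕ, Sys (XA a M η) k (c₁ / 2) c C c₂ N₁ := by
  classical
  obtain ⟨η₀, hη₀, hlow⟩ := low (c₁ / 2 * Real.log 2) ε (by have := Real.log_pos (show (1 : ℝ) < 2 by norm_num); positivity) hε
  refine ⟨η₀, hη₀, fun η hη hηη => ?_⟩
  obtain ⟨c, hc, P₁, h1⟩ := hlow η hη hηη
  have hc₂r : (1 : ℝ) ≤ c₂ := by exact_mod_cast hc₂
  obtain ⟨C, hC, P₂, h2⟩ := sieveH (c₁ / 2) (4 * D₀ + 4 * c₂ + 1) η (by positivity) (by positivity) hη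
  refine ⟨c / 2, C ^ 2 + C + Cg, by positivity, by positivity, fun a M k y N₀ D => ?_⟩
  refine ⟨max (max P₁ P₂) (max N₀ 3), ?_⟩
  set Λ : ℝ := 4 * D₀ + 4 * c₂ + 1 with hΛ
  -- sizes
  have size : ∀ x : ℕ, max (max P₁ P₂) (max N₀ 3) ≤ x → ∀ p, p.Prime → x < p → p ≤ 2 * x →
      ∀ z : ℕ, (z : ℝ) ≤ c₁ / 2 * x → z ≤ k p ∧ c₁ / 2 * p ≤ ((k p - z : ℕ) : ℝ) ∧
        (k p : ℝ) ≤ 2 * c₂ * x ∧ (a p : ℝ) ≤ (2 : ℝ) ^ (2 * D₀ * x) ∧ (M p : ℝ) ≤ (2 : ℝ) ^ (2 * D₀ * x) := by
    intro x hx p hp hxp hpx z hz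
    have hxN : N₀ ≤ x := ((le_max_left _ _).trans (le_max_right _ _)).trans hx
    have hxp' : (x : ℝ) ≤ p := by exact_mod_cast hxp.le
    have hpx' : (p : ℝ) ≤ 2 * x := by exact_mod_cast hpx
    have hx0 : (0 : ℝ) ≤ x := Nat.cast_nonneg _
    have d1 := D.lo p (by omega) hp
    have d2 : (k p : ℝ) ≤ c₂ * p := by exact_mod_cast D.hi p (by omega) hp
    have e1 : (z : ℝ) ≤ c₁ / 2 * p := hz.trans (by gcongr)
    have e2 : z ≤ k p := by
      have : (z : ℝ) ≤ k p := by nlinarith
      exact_mod_cast this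
    refine ⟨e2, ?_, ?_, ?_, ?_⟩
    · rw [Nat.cast_sub e2]
      linarith
    · calc (k p : ℝ) ≤ c₂ * p := d2
        _ ≤ c₂ * (2 * x) := by gcongr
        _ = 2 * c₂ * x := by ring
    · refine (D.asz p (by omega) hp).trans (Real.rpow_le_rpow_of_exponent_le (by norm_num) ?_)
      calc D₀ * (p : ℝ) ≤ D₀ * (2 * x) := by gcongr
        _ = 2 * D₀ * x := by ring
    · refine (D.msz p (by omega) hp).trans (Real.rpow_le_rpow_of_exponent_le (by norm_num) ?_)
      calc D₀ * (p : ℝ) ≤ D₀ * (2 * x) := by gcongr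
        _ = 2 * D₀ * x := by ring
  have small : ∀ x : ℕ, 3 ≤ x → ∀ p : ℕ, x < p → (2 : ℝ) ^ (η * (x : ℝ)) ≤ (2 : ℝ) ^ (η * (p : ℝ)) := by
    intro x hx3 p hxp
    refine Real.rpow_le_rpow_of_exponent_le (by norm_num) ?_
    have : (x : ℝ) ≤ p := by exact_mod_cast hxp.le
    gcongr
  have hcopl : ∀ x : ℕ, max (max P₁ P₂) (max N₀ 3) ≤ x → ∀ p, p.Prime → x < p → p ≤ 2 * x →
      ∀ l : ℕ, l.Prime → 2 * x < l → Nat.Coprime (M p) l := by
    intro x hx p hp hxp hpx l hl hxl
    have hxN : N₀ ≤ x := ((le_max_left _ _).trans (le_max_right _ _)).trans hx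
    rw [Nat.coprime_comm, Nat.Prime.coprime_iff_not_dvd hl]
    intro h
    have h3 := (D.fac p (by omega) hp l hl).1 h
    have h4 := D.y2 p (by omega) hp
    omega
  -- upper bound for one exponent
  have upp : ∀ x : ℕ, max (max P₁ P₂) (max N₀ 3) ≤ x → ∀ p, p.Prime → x < p → p ≤ 2 * x →
      ∀ z : ℕ, (z : ℝ) ≤ c₁ / 2 * x → ∀ j < 2 ^ z,
      ∑ n ∈ Ico (j * 2 ^ (k p - z)) ((j + 1) * 2 ^ (k p - z)), XA a M η p n ≤
        C * (Real.log x / x) * (2 : ℝ) ^ (k p - z) := by
    intro x hx p hp hxp hpx z hz j hj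
    have hx3 : 3 ≤ x := ((le_max_right _ _).trans (le_max_right _ _)).trans hx
    have hxP₂ : P₂ ≤ x := ((le_max_right _ _).trans (le_max_left _ _)).trans hx
    obtain ⟨s1, s2, s3, s4, s5⟩ := size x hx p hp hxp hpx z hz
    have hxp' : (x : ℝ) ≤ p := by exact_mod_cast hxp.le
    have hx3r : (3 : ℝ) ≤ x := by exact_mod_cast hx3
    obtain ⟨E, hE⟩ : ∃ E, E = k p - z := ⟨_, rfl⟩
    rw [← hE] at s2 ⊢
    have hEk : (E : ℝ) ≤ k p := by
      have : E ≤ k p := by omega
      exact_mod_cast this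
    have hjE : j * 2 ^ E < 2 ^ k p := by
      calc j * 2 ^ E < 2 ^ z * 2 ^ E := Nat.mul_lt_mul_of_pos_right hj (by positivity)
        _ = 2 ^ k p := by rw [← pow_add]; congr 1; omega
    have hjE' : ((j * 2 ^ E : ℕ) : ℝ) ≤ (2 : ℝ) ^ (2 * c₂ * (x : ℝ)) := by
      have : ((j * 2 ^ E : ℕ) : ℝ) ≤ ((2 ^ k p : ℕ) : ℝ) := by exact_mod_cast hjE.le
      refine this.trans ?_
      push_cast
      rw [← Real.rpow_natCast]
      exact Real.rpow_le_rpow_of_exponent_le (by norm_num) s3
    have h := h2 x hxP₂ {0} (fun _ => M p) (fun _ => a p + M p * (j * 2 ^ E)) E (by simp) (by simp)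
      (by
        refine le_trans ?_ s2
        gcongr)
      (by
        refine (hEk.trans s3).trans ?_
        rw [hΛ]
        nlinarith)
      (by
        intro i _ l hl hxl
        exact hcopl x hx p hp hxp hpx l hl hxl)
      (by
        intro i _ i' _
        have e1 : ((a p + M p * (j * 2 ^ E) : ℕ) : ℝ) ≤ (2 : ℝ) ^ (2 * D₀ * (x : ℝ) + 2 * c₂ * x + 1) := by
          push_cast
          push_cast at hjE'
          have e2 : (M p : ℝ) * (j * 2 ^ E) ≤ (2 : ℝ) ^ (2 * D₀ * (x : ℝ)) * (2 : ℝ) ^ (2 * c₂ * (x : ℝ)) :=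
            mul_le_mul s5 hjE' (by positivity) (by positivity)
          have e3 : (1 : ℝ) ≤ (2 : ℝ) ^ (2 * c₂ * (x : ℝ)) := Real.one_le_rpow (by norm_num) (by positivity)
          have e4 : (a p : ℝ) ≤ (2 : ℝ) ^ (2 * D₀ * (x : ℝ)) * (2 : ℝ) ^ (2 * c₂ * (x : ℝ)) :=
            s4.trans (le_mul_of_one_le_right (by positivity) e3)
          rw [Real.rpow_add (by norm_num), Real.rpow_add (by norm_num), Real.rpow_one]
          linarith
        calc (M p : ℝ) * ((a p + M p * (j * 2 ^ E) : ℕ) : ℝ) ≤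
              (2 : ℝ) ^ (2 * D₀ * (x : ℝ)) * (2 : ℝ) ^ (2 * D₀ * (x : ℝ) + 2 * c₂ * x + 1) :=
              mul_le_mul s5 e1 (Nat.cast_nonneg _) (by positivity)
          _ = (2 : ℝ) ^ (4 * D₀ * (x : ℝ) + 2 * c₂ * x + 1) := by
              rw [← Real.rpow_add (by norm_num)]
              ring_nf
          _ ≤ _ := by
              refine Real.rpow_le_rpow_of_exponent_le (by norm_num) ?_
              rw [hΛ]
              nlinarith)
      (by simp)
    simp only [Finset.card_singleton, pow_one, Finset.mem_singleton, forall_eq] at h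
    refine le_trans ?_ h
    have e5 : ∑ n ∈ Ico (j * 2 ^ E) ((j + 1) * 2 ^ E), XA a M η p n =
        ∑ m ∈ range (2 ^ E), XA a M η p (j * 2 ^ E + m) := by
      rw [Finset.sum_Ico_eq_sum_range]
      have : (j + 1) * 2 ^ E - j * 2 ^ E = 2 ^ E := by
        rw [add_mul, one_mul]
        exact Nat.add_sub_cancel_left _ _
      rw [this]
    rw [e5]
    unfold XA
    rw [← Finset.sum_filter, Finset.sum_const, nsmul_eq_mul, mul_one]
    have hsub : (range (2 ^ E)).filter (fun m => ∀ q : ℕ, q.Prime → q ∣ a p + M p * (j * 2 ^ E + m) →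
        (2 : ℝ) ^ (η * (p : ℝ)) < q) ⊆ (range (2 ^ E)).filter (fun m => ∀ l : ℕ, l.Prime → 2 * x < l →
        (l : ℝ) ≤ (2 : ℝ) ^ (η * (x : ℝ)) → ¬ l ∣ M p * m + (a p + M p * (j * 2 ^ E))) := by
      intro m hm
      rw [mem_filter] at hm ⊢
      refine ⟨hm.1, fun l hl hxl hlx hd => ?_⟩
      have h6 : M p * m + (a p + M p * (j * 2 ^ E)) = a p + M p * (j * 2 ^ E + m) := by ring
      rw [h6] at hd
      have h7 := hm.2 l hl hd
      have h8 := small x hx3 p hxp
      linarith
    exact_mod_cast Finset.card_le_card hsub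
  constructor
  · exact XA_zero_one a M η
  · intro p hp hpp
    exact D.hi p (((le_max_left _ _).trans (le_max_right _ _)).trans hp) hpp
  · intro p hp q hq hpp hqp
    exact D.mono p (((le_max_left _ _).trans (le_max_right _ _)).trans hp) q hq hpp hqp
  · intro p hp hpp T hT
    refine (D.geo p (((le_max_left _ _).trans (le_max_right _ _)).trans hp) hpp T fun q hq => ?_).trans ?_
    · exact ⟨((le_max_left _ _).trans (le_max_right _ _)).trans (hT q hq).1, (hT q hq).2⟩
    · have : 0 ≤ C ^ 2 + C := by positivity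
      linarith
  · -- one exponent
    intro x hx p hp hxp hpx z hz j hj
    have hx3 : 3 ≤ x := ((le_max_right _ _).trans (le_max_right _ _)).trans hx
    have hxN : N₀ ≤ x := ((le_max_left _ _).trans (le_max_right _ _)).trans hx
    have hxP₁ : P₁ ≤ x := ((le_max_left _ _).trans (le_max_left _ _)).trans hx
    obtain ⟨s1, s2, s3, s4, s5⟩ := size x hx p hp hxp hpx z hz
    have hxp' : (x : ℝ) ≤ p := by exact_mod_cast hxp.le
    have hpx' : (p : ℝ) ≤ 2 * x := by exact_mod_cast hpx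
    have hx3r : (3 : ℝ) ≤ x := by exact_mod_cast hx3
    have hx0 : (0 : ℝ) < x := by linarith
    have hp0 : (0 : ℝ) < p := by linarith
    have hL0 : 0 ≤ Real.log x / x := div_nonneg (Real.log_natCast_nonneg x) hx0.le
    refine ⟨s1, ?_, ?_⟩
    · obtain ⟨E, hE⟩ : ∃ E, E = k p - z := ⟨_, rfl⟩
      rw [← hE] at s2 ⊢
      have hfac := D.fac p (by omega) hp
      obtain ⟨A, hA⟩ := crt (a p) (M p) (y p) ⌊(2 : ℝ) ^ (η * (p : ℝ))⌋₊ hfac (j * 2 ^ E)
      have h3 := h1 p (by omega) A (2 ^ E) (y p)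
        (by
          push_cast
          rw [← Real.rpow_natCast, Real.rpow_def_of_pos (by norm_num), Real.exp_le_exp]
          have := Real.log_pos (show (1 : ℝ) < 2 by norm_num)
          nlinarith)
        (D.y1 p (by omega) hp) (D.y2 p (by omega) hp)
      have e5 : ∑ n ∈ Ico (j * 2 ^ E) ((j + 1) * 2 ^ E), XA a M η p n =
          ∑ m ∈ range (2 ^ E), XA a M η p (j * 2 ^ E + m) := by
        rw [Finset.sum_Ico_eq_sum_range]
        have : (j + 1) * 2 ^ E - j * 2 ^ E = 2 ^ E := by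
          rw [add_mul, one_mul]
          exact Nat.add_sub_cancel_left _ _
        rw [this]
      rw [e5]
      unfold XA
      rw [← Finset.sum_filter, Finset.sum_const, nsmul_eq_mul, mul_one]
      have hsub : (range (2 ^ E)).filter (fun i => ∀ l : ℕ, l.Prime → y p < l → (l : ℝ) ≤ (2 : ℝ) ^ (η * (p : ℝ)) →
          ¬ l ∣ A + i) ⊆ (range (2 ^ E)).filter (fun m => ∀ q : ℕ, q.Prime → q ∣ a p + M p * (j * 2 ^ E + m) →
          (2 : ℝ) ^ (η * (p : ℝ)) < q) := by
        intro m hm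
        rw [mem_filter] at hm ⊢
        refine ⟨hm.1, fun q hq hd => ?_⟩
        by_contra hcon
        rw [not_lt] at hcon
        rcases Nat.lt_or_ge (y p) q with h4 | h4
        · exact hm.2 q hq h4 hcon ((hA q hq h4 (Nat.le_floor hcon) m).1 hd)
        · have h5 : q ∣ M p := (hfac q hq).2 h4
          have h6 : q ∣ a p := (Nat.dvd_add_left (h5.mul_right _)).1 hd
          have h7 := Nat.dvd_gcd h6 h5
          rw [D.cop p (by omega) hp] at h7
          exact hq.one_lt.ne' (Nat.dvd_one.1 h7)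
      have h4 : (#((range (2 ^ E)).filter (fun i => ∀ l : ℕ, l.Prime → y p < l → (l : ℝ) ≤ (2 : ℝ) ^ (η * (p : ℝ)) →
          ¬ l ∣ A + i)) : ℝ) ≤ #((range (2 ^ E)).filter (fun m => ∀ q : ℕ, q.Prime →
          q ∣ a p + M p * (j * 2 ^ E + m) → (2 : ℝ) ^ (η * (p : ℝ)) < q)) := by
        exact_mod_cast Finset.card_le_card hsub
      refine le_trans ?_ h4
      refine le_trans ?_ h3
      have e2 : Real.log x / x ≤ 2 * (Real.log p / p) := by
        have e3 : Real.log x ≤ Real.log p := Real.log_le_log hx0 hxp'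
        rw [div_le_iff₀ hx0]
        have e4 : 2 * (Real.log p / p) * x = Real.log p * (2 * x / p) := by ring
        rw [e4]
        have e5 : 1 ≤ 2 * (x : ℝ) / p := by rwa [one_le_div hp0]
        have : 0 ≤ Real.log x := Real.log_natCast_nonneg x
        nlinarith
      push_cast
      calc c / 2 * (Real.log x / x) * (2 : ℝ) ^ E ≤ c / 2 * (2 * (Real.log p / p)) * (2 : ℝ) ^ E := by gcongr
        _ = _ := by ring
    · refine (upp x hx p hp hxp hpx z hz j hj).trans ?_
      gcongr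
      have : 0 ≤ C ^ 2 := by positivity
      linarith
  · -- two exponents
    intro x hx p q hp hq hxp hpq hqx z hz j hj
    have hx3 : 3 ≤ x := ((le_max_right _ _).trans (le_max_right _ _)).trans hx
    have hxN : N₀ ≤ x := ((le_max_left _ _).trans (le_max_right _ _)).trans hx
    have hxP₂ : P₂ ≤ x := ((le_max_right _ _).trans (le_max_left _ _)).trans hx
    have hx3r : (3 : ℝ) ≤ x := by exact_mod_cast hx3
    have hx0 : (0 : ℝ) < x := by linarith
    obtain ⟨s1, s2, s3, s4, s5⟩ := size x hx p hp hxp (by omega) z hz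
    obtain ⟨t1, t2, t3, t4, t5⟩ := size x hx q hq (by omega) hqx z hz
    have hone := upp x hx p hp hxp (by omega) z hz j hj
    have hkpq := D.mono p (by omega) q hpq.le hp hq
    have hxp' : (x : ℝ) ≤ p := by exact_mod_cast hxp.le
    obtain ⟨E, hE⟩ : ∃ E, E = k p - z := ⟨_, rfl⟩
    obtain ⟨h, hh⟩ : ∃ h, h = k q - k p := ⟨_, rfl⟩
    have hEq : k q - z = E + h := by omega
    rw [← hE] at s2 hone
    rw [hEq, ← hh]
    have hEk : (E : ℝ) ≤ k p := by
      have : E ≤ k p := by omega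
      exact_mod_cast this
    have hhk : (h : ℝ) ≤ 2 * c₂ * x := by
      have : (h : ℝ) ≤ k q := by
        have : h ≤ k q := by omega
        exact_mod_cast this
      linarith
    have hL0 : 0 ≤ Real.log x / x := div_nonneg (Real.log_natCast_nonneg x) hx0.le
    set L := Real.log x / x with hL
    have hBpos : 0 < 2 ^ h := by positivity
    have hB : ((2 ^ h : ℕ) : ℝ) = (2 : ℝ) ^ h := by push_cast; rfl
    have hMp := D.pos p (by omega) hp
    have hMq := D.pos q (by omega) hq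
    have hsplit : 2 ^ (E + h) = 2 ^ E * 2 ^ h := pow_add _ _ _
    have hjE : (j + 1) * 2 ^ (E + h) ≤ 2 ^ k q := by
      calc (j + 1) * 2 ^ (E + h) ≤ 2 ^ z * 2 ^ (E + h) := Nat.mul_le_mul_right _ hj
        _ = 2 ^ k q := by rw [← pow_add]; congr 1; omega
    have hkq2 : ((2 ^ k q : ℕ) : ℝ) ≤ (2 : ℝ) ^ (2 * c₂ * (x : ℝ)) := by
      push_cast
      rw [← Real.rpow_natCast]
      exact Real.rpow_le_rpow_of_exponent_le (by norm_num) t3
    rw [hsplit, ← mul_assoc, ← mul_assoc, sum_cells _ _ _ (Nat.mul_le_mul_right _ (Nat.le_succ j)), Finset.sum_comm]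
    have inner : ∀ r ∈ range (2 ^ h), ∑ m ∈ Ico (j * 2 ^ E) ((j + 1) * 2 ^ E),
        XA a M η p ((m * 2 ^ h + r) / 2 ^ h) * XA a M η q (m * 2 ^ h + r) ≤
        (if M p * (a q + M q * r) = M q * 2 ^ h * a p then C * L * (2 : ℝ) ^ E else 0) +
        (C * L) ^ 2 * (2 : ℝ) ^ E := by
      intro r hr
      rw [mem_range] at hr
      have e0 : ∀ m, (m * 2 ^ h + r) / 2 ^ h = m := by
        intro m
        rw [Nat.add_div_of_dvd_right (dvd_mul_left _ m), Nat.mul_div_cancel _ hBpos, Nat.div_eq_of_lt hr, add_zero]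
      simp only [e0]
      by_cases hdeg : M p * (a q + M q * r) = M q * 2 ^ h * a p
      · rw [if_pos hdeg]
        have e1 : ∑ m ∈ Ico (j * 2 ^ E) ((j + 1) * 2 ^ E), XA a M η p m * XA a M η q (m * 2 ^ h + r) ≤
            ∑ m ∈ Ico (j * 2 ^ E) ((j + 1) * 2 ^ E), XA a M η p m := by
          refine Finset.sum_le_sum fun m _ => ?_
          have := XA_le_one a M η q (m * 2 ^ h + r)
          have h0 := XA_nonneg a M η p m
          nlinarith
        refine (e1.trans hone).trans ?_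
        have : 0 ≤ (C * L) ^ 2 * (2 : ℝ) ^ E := by positivity
        linarith
      · rw [if_neg hdeg, zero_add]
        have hrq : j * 2 ^ E * 2 ^ h + r ≤ 2 ^ k q := by
          have h3 : j * 2 ^ E * 2 ^ h = j * 2 ^ (E + h) := by rw [hsplit]; ring
          have h4 : r < 2 ^ (E + h) := hr.trans_le (Nat.pow_le_pow_right (by norm_num) (by omega))
          rw [h3]
          rw [add_mul, one_mul] at hjE
          omega
        have hrq' : ((j * 2 ^ E * 2 ^ h + r : ℕ) : ℝ) ≤ (2 : ℝ) ^ (2 * c₂ * (x : ℝ)) := by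
          refine le_trans ?_ hkq2
          exact_mod_cast hrq
        have hjp : ((j * 2 ^ E : ℕ) : ℝ) ≤ (2 : ℝ) ^ (2 * c₂ * (x : ℝ)) := by
          refine le_trans ?_ hrq'
          have : j * 2 ^ E ≤ j * 2 ^ E * 2 ^ h + r := by
            have : j * 2 ^ E * 1 ≤ j * 2 ^ E * 2 ^ h := Nat.mul_le_mul_left _ hBpos
            omega
          exact_mod_cast this
        have e1 : ((a p + M p * (j * 2 ^ E) : ℕ) : ℝ) ≤ (2 : ℝ) ^ (2 * D₀ * (x : ℝ) + 2 * c₂ * x + 1) := by
          push_cast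
          push_cast at hjp
          have e2 : (M p : ℝ) * (j * 2 ^ E) ≤ (2 : ℝ) ^ (2 * D₀ * (x : ℝ)) * (2 : ℝ) ^ (2 * c₂ * (x : ℝ)) :=
            mul_le_mul s5 hjp (by positivity) (by positivity)
          have e3 : (1 : ℝ) ≤ (2 : ℝ) ^ (2 * c₂ * (x : ℝ)) := Real.one_le_rpow (by norm_num) (by positivity)
          have e4 : (a p : ℝ) ≤ (2 : ℝ) ^ (2 * D₀ * (x : ℝ)) * (2 : ℝ) ^ (2 * c₂ * (x : ℝ)) :=
            s4.trans (le_mul_of_one_le_right (by positivity) e3)
          rw [Real.rpow_add (by norm_num), Real.rpow_add (by norm_num), Real.rpow_one]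
          linarith
        have e1' : ((a q + M q * (j * 2 ^ E * 2 ^ h + r) : ℕ) : ℝ) ≤
            (2 : ℝ) ^ (2 * D₀ * (x : ℝ) + 2 * c₂ * x + 1) := by
          push_cast
          push_cast at hrq'
          have e2 : (M q : ℝ) * (j * 2 ^ E * 2 ^ h + r) ≤ (2 : ℝ) ^ (2 * D₀ * (x : ℝ)) * (2 : ℝ) ^ (2 * c₂ * (x : ℝ)) :=
            mul_le_mul t5 hrq' (by positivity) (by positivity)
          have e3 : (1 : ℝ) ≤ (2 : ℝ) ^ (2 * c₂ * (x : ℝ)) := Real.one_le_rpow (by norm_num) (by positivity)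
          have e4 : (a q : ℝ) ≤ (2 : ℝ) ^ (2 * D₀ * (x : ℝ)) * (2 : ℝ) ^ (2 * c₂ * (x : ℝ)) :=
            t4.trans (le_mul_of_one_le_right (by positivity) e3)
          rw [Real.rpow_add (by norm_num), Real.rpow_add (by norm_num), Real.rpow_one]
          linarith
        have f1 : ((M q * 2 ^ h : ℕ) : ℝ) ≤ (2 : ℝ) ^ (2 * D₀ * (x : ℝ) + 2 * c₂ * x) := by
          push_cast
          rw [Real.rpow_add (by norm_num)]
          refine mul_le_mul t5 ?_ (by positivity) (by positivity)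
          rw [← Real.rpow_natCast]
          exact Real.rpow_le_rpow_of_exponent_le (by norm_num) hhk
        have f0 : (M p : ℝ) ≤ (2 : ℝ) ^ (2 * D₀ * (x : ℝ) + 2 * c₂ * x) := by
          refine s5.trans (Real.rpow_le_rpow_of_exponent_le (by norm_num) ?_)
          have : 0 ≤ 2 * c₂ * (x : ℝ) := by positivity
          linarith
        have fin : (2 : ℝ) ^ (2 * D₀ * (x : ℝ) + 2 * c₂ * x) * (2 : ℝ) ^ (2 * D₀ * (x : ℝ) + 2 * c₂ * x + 1) ≤
            (2 : ℝ) ^ (Λ * x) := by
          rw [← Real.rpow_add (by norm_num)]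
          refine Real.rpow_le_rpow_of_exponent_le (by norm_num) ?_
          rw [hΛ]
          nlinarith
        have g := h2 x hxP₂ {0, 1} (fun i => if i = 0 then M p else M q * 2 ^ h)
          (fun i => if i = 0 then a p + M p * (j * 2 ^ E) else a q + M q * (j * 2 ^ E * 2 ^ h + r)) E
          (by simp) (by simp)
          (by
            refine le_trans ?_ s2
            gcongr)
          (by
            refine (hEk.trans s3).trans ?_
            rw [hΛ]
            nlinarith)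
          (by
            intro i hi l hl hxl
            rw [Finset.mem_insert, Finset.mem_singleton] at hi
            rcases hi with rfl | rfl
            · exact hcopl x hx p hp hxp (by omega) l hl hxl
            · simp only [one_ne_zero, if_false]
              refine Nat.Coprime.mul_left (hcopl x hx q hq (by omega) hqx l hl hxl) ?_
              refine Nat.Coprime.pow_left h ?_
              rw [Nat.coprime_comm, Nat.Prime.coprime_iff_not_dvd hl]
              intro h5
              have := Nat.le_of_dvd (by norm_num) h5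
              omega)
          (by
            intro i hi i' hi'
            rw [Finset.mem_insert, Finset.mem_singleton] at hi hi'
            refine le_trans ?_ fin
            refine mul_le_mul ?_ ?_ (Nat.cast_nonneg _) (by positivity)
            · rcases hi with rfl | rfl
              · exact f0
              · exact f1
            · rcases hi' with rfl | rfl
              · exact e1
              · exact e1')
          (by
            intro i hi i' hi' hii'
            rw [Finset.mem_insert, Finset.mem_singleton] at hi hi'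
            rcases hi with rfl | rfl
            · rcases hi' with rfl | rfl
              · omega
              · simp only [if_true, one_ne_zero, if_false]
                intro h5
                apply hdeg
                have h6 : M p * (a q + M q * r) + M p * (M q * (j * 2 ^ E * 2 ^ h)) =
                    M q * 2 ^ h * a p + M p * (M q * (j * 2 ^ E * 2 ^ h)) := by
                  calc _ = M p * (a q + M q * (j * 2 ^ E * 2 ^ h + r)) := by ring
                    _ = M q * 2 ^ h * (a p + M p * (j * 2 ^ E)) := h5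
                    _ = _ := by ring
                exact Nat.add_right_cancel h6
            · rcases hi' with rfl | rfl <;> omega)
        have h3 : #({0, 1} : Finset ℕ) = 2 := rfl
        rw [h3] at g
        refine le_trans ?_ g
        have e5 : ∑ m ∈ Ico (j * 2 ^ E) ((j + 1) * 2 ^ E), XA a M η p m * XA a M η q (m * 2 ^ h + r) =
            ∑ m ∈ range (2 ^ E), XA a M η p (j * 2 ^ E + m) * XA a M η q ((j * 2 ^ E + m) * 2 ^ h + r) := by
          rw [Finset.sum_Ico_eq_sum_range]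
          have : (j + 1) * 2 ^ E - j * 2 ^ E = 2 ^ E := by
            rw [add_mul, one_mul]
            exact Nat.add_sub_cancel_left _ _
          rw [this]
        rw [e5]
        have e6 : ∀ m, XA a M η p (j * 2 ^ E + m) * XA a M η q ((j * 2 ^ E + m) * 2 ^ h + r) ≤
            if (∀ i ∈ ({0, 1} : Finset ℕ), ∀ l : ℕ, l.Prime → 2 * x < l → (l : ℝ) ≤ (2 : ℝ) ^ (η * (x : ℝ)) →
              ¬ l ∣ (if i = 0 then M p else M q * 2 ^ h) * m +
                (if i = 0 then a p + M p * (j * 2 ^ E) else a q + M q * (j * 2 ^ E * 2 ^ h + r))) then (1 : ℝ)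
            else 0 := by
          intro m
          split_ifs with hcond
          · have a1 := XA_le_one a M η p (j * 2 ^ E + m)
            have a2 := XA_le_one a M η q ((j * 2 ^ E + m) * 2 ^ h + r)
            have a3 := XA_nonneg a M η p (j * 2 ^ E + m)
            have a4 := XA_nonneg a M η q ((j * 2 ^ E + m) * 2 ^ h + r)
            nlinarith
          · by_contra hcon
            rw [not_le] at hcon
            apply hcond
            have a3 := XA_zero_one a M η p (j * 2 ^ E + m)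
            have a4 := XA_zero_one a M η q ((j * 2 ^ E + m) * 2 ^ h + r)
            have b1 : XA a M η p (j * 2 ^ E + m) = 1 := by
              rcases a3 with h5 | h5
              · rw [h5, zero_mul] at hcon
                exact absurd hcon (lt_irrefl _)
              · exact h5
            have b2 : XA a M η q ((j * 2 ^ E + m) * 2 ^ h + r) = 1 := by
              rcases a4 with h5 | h5
              · rw [h5, mul_zero] at hcon
                exact absurd hcon (lt_irrefl _)
              · exact h5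
            unfold XA at b1 b2
            have b1' : ∀ q : ℕ, q.Prime → q ∣ a p + M p * (j * 2 ^ E + m) → (2 : ℝ) ^ (η * (p : ℝ)) < q := by
              by_contra h5
              rw [if_neg h5] at b1
              norm_num at b1
            have b2' : ∀ l : ℕ, l.Prime → l ∣ a q + M q * ((j * 2 ^ E + m) * 2 ^ h + r) →
                (2 : ℝ) ^ (η * (q : ℝ)) < l := by
              by_contra h5
              rw [if_neg h5] at b2
              norm_num at b2
            intro i hi l hl hxl hlx hd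
            rw [Finset.mem_insert, Finset.mem_singleton] at hi
            rcases hi with rfl | rfl
            · simp only [if_true] at hd
              have h6 : M p * m + (a p + M p * (j * 2 ^ E)) = a p + M p * (j * 2 ^ E + m) := by ring
              rw [h6] at hd
              have h7 := b1' l hl hd
              have h8 := small x hx3 p hxp
              linarith
            · simp only [one_ne_zero, if_false] at hd
              have h6 : M q * 2 ^ h * m + (a q + M q * (j * 2 ^ E * 2 ^ h + r)) =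
                  a q + M q * ((j * 2 ^ E + m) * 2 ^ h + r) := by ring
              rw [h6] at hd
              have h7 := b2' l hl hd
              have h8 := small x hx3 q (by omega)
              linarith
        refine (Finset.sum_le_sum fun m _ => e6 m).trans ?_
        rw [← Finset.sum_filter, Finset.sum_const, nsmul_eq_mul, mul_one]
    refine (Finset.sum_le_sum inner).trans ?_
    rw [Finset.sum_add_distrib, Finset.sum_const, card_range, nsmul_eq_mul, hB]
    have j1 : ∑ r ∈ range (2 ^ h), (if M p * (a q + M q * r) = M q * 2 ^ h * a p then C * L * (2 : ℝ) ^ E else 0) ≤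
        C * L * (2 : ℝ) ^ E := by
      rw [← Finset.sum_filter, Finset.sum_const, nsmul_eq_mul]
      have : #((range (2 ^ h)).filter (fun r => M p * (a q + M q * r) = M q * 2 ^ h * a p)) ≤ 1 := by
        rw [Finset.card_le_one]
        intro u hu v hv
        rw [mem_filter] at hu hv
        have h5 : M p * (a q + M q * u) = M p * (a q + M q * v) := hu.2.trans hv.2.symm
        have h6 := Nat.eq_of_mul_eq_mul_left hMp h5
        have h7 : M q * u = M q * v := by omega
        exact Nat.eq_of_mul_eq_mul_left hMq h7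
      have h8 : (#((range (2 ^ h)).filter (fun r => M p * (a q + M q * r) = M q * 2 ^ h * a p)) : ℝ) ≤ 1 := by
        exact_mod_cast this
      have h9 : 0 ≤ C * L * (2 : ℝ) ^ E := by positivity
      nlinarith
    have e2 : (2 : ℝ) ^ (E + h) = (2 : ℝ) ^ E * (2 : ℝ) ^ h := pow_add _ _ _
    rw [e2]
    have e3 : ((2 : ℝ) ^ h)⁻¹ * (2 : ℝ) ^ h = 1 := inv_mul_cancel₀ (by positivity)
    have hfin : (C ^ 2 + C + Cg) * (L ^ 2 + ((2 : ℝ) ^ h)⁻¹ * L) * ((2 : ℝ) ^ E * (2 : ℝ) ^ h) =
        (C * L * (2 : ℝ) ^ E + (2 : ℝ) ^ h * ((C * L) ^ 2 * (2 : ℝ) ^ E)) +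
        ((C + Cg) * L ^ 2 * ((2 : ℝ) ^ E * (2 : ℝ) ^ h) + (C ^ 2 + Cg) * L * (2 : ℝ) ^ E) := by
      have e4 : (C ^ 2 + C + Cg) * (L ^ 2 + ((2 : ℝ) ^ h)⁻¹ * L) * ((2 : ℝ) ^ E * (2 : ℝ) ^ h) =
        (C ^ 2 + C + Cg) * L ^ 2 * ((2 : ℝ) ^ E * (2 : ℝ) ^ h) +
        (C ^ 2 + C + Cg) * L * (2 : ℝ) ^ E * (((2 : ℝ) ^ h)⁻¹ * (2 : ℝ) ^ h) := by ring
      rw [e4, e3]
      ring
    rw [hfin]
    have h10 : 0 ≤ (C + Cg) * L ^ 2 * ((2 : ℝ) ^ E * (2 : ℝ) ^ h) + (C ^ 2 + Cg) * L * (2 : ℝ) ^ E := by positivity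
    linarith

end Pool.Agent.T9h55.PG
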