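import Pool.Agent.T9h55.PG.AE

/-! The sets of exponents of finite weight, and all positive `γ` (helper55). -/

set_option autoImplicit false

namespace Pool.Agent.T9h55.PG

open Finset Filter Topology MeasureTheory
open Pool.Agent.T9h55.PF (vv vv_nonneg PS PS_mono cheb)

lemma hit_prob {ε c C : ℝ} {c₂ : ℕ} (hε : 0 ≤ ε) (hC : 0 < C) {X : ℕ → ℕ → ℝ} {k : ℕ → ℕ} {N₀ : ℕ}
    (D : Sys X k ε c C c₂ N₀) : ∀ p > N₀ + 2, p.Prime →
      volume {γ : ℝ | 0 < γ ∧ γ < 1 ∧ X p ⌊γ * 2 ^ k p⌋₊ = 1} ≤ ENNReal.ofReal (8 * C * (Real.log p / p)) := by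
  classical
  intro p hp hpr
  obtain ⟨x, hx⟩ : ∃ x, p = x + 1 := ⟨p - 1, by omega⟩
  have h2 := (D.one x (by omega) p hpr (by omega) (by omega) 0 (by
    push_cast
    positivity) 0 (by simp)).2.2
  rw [Nat.sub_zero, zero_mul, zero_add, one_mul] at h2
  have hX0 : ∀ n, 0 ≤ X p n := by
    intro n
    rcases D.zero_one p n with h | h <;> rw [h] <;> norm_num
  have hXsq : ∀ n, X p n * X p n = X p n := by
    intro n
    rcases D.zero_one p n with h | h <;> rw [h] <;> norm_num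
  have h3 := cheb (k p) (fun n => X p n) (C * (Real.log x / x)) (1 / 2) (by norm_num) (by
    refine le_trans (le_of_eq ?_) h2
    rw [Finset.range_eq_Ico]
    refine Finset.sum_congr rfl fun n _ => ?_
    rw [max_eq_left (hX0 _), sq, hXsq])
  have hsub : {γ : ℝ | 0 < γ ∧ γ < 1 ∧ X p ⌊γ * 2 ^ k p⌋₊ = 1} ⊆
      {γ : ℝ | 0 < γ ∧ γ < 1 ∧ 1 / 2 < (fun n => X p n) ⌊γ * 2 ^ k p⌋₊} := by
    rintro γ ⟨q1, q2, q3⟩
    refine ⟨q1, q2, ?_⟩
    simp only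
    rw [q3]
    norm_num
  refine (measure_mono hsub).trans (h3.trans (ENNReal.ofReal_le_ofReal ?_))
  have hx2 : 2 ≤ x := by omega
  have hx2r : (2 : ℝ) ≤ x := by exact_mod_cast hx2
  have hx0 : (0 : ℝ) < x := by linarith
  have hpx : (p : ℝ) = x + 1 := by rw [hx]; push_cast; rfl
  have hlx : 0 ≤ Real.log x := Real.log_natCast_nonneg x
  have e3 : Real.log x ≤ Real.log p := Real.log_le_log hx0 (by rw [hpx]; linarith)
  have e2 : Real.log x / x ≤ 2 * (Real.log p / p) := by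
    rw [div_le_iff₀ hx0]
    have e4 : 2 * (Real.log p / p) * x = Real.log p * (2 * x / p) := by ring
    rw [e4]
    have e5 : 1 ≤ 2 * (x : ℝ) / p := by
      rw [one_le_div (by rw [hpx]; linarith), hpx]
      linarith
    nlinarith
  calc C * (Real.log x / x) / (1 / 2) ^ 2 = 4 * C * (Real.log x / x) := by ring
    _ ≤ 4 * C * (2 * (Real.log p / p)) := by gcongr
    _ = _ := by ring

/-- **finite weight, finitely many exponents** -/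
theorem ae_finite {ε c C : ℝ} {c₂ : ℕ} (hε : 0 ≤ ε) (hC : 0 < C) {X : ℕ → ℕ → ℝ} {k : ℕ → ℕ} {N₀ : ℕ}
    (D : Sys X k ε c C c₂ N₀) (S : Set ℕ) (hS : ∃ B : ℝ, ∀ n, vv (PS S n) ≤ B) :
      ∀ᵐ γ : ℝ, 0 < γ → γ < 1 → {p : ℕ | p.Prime ∧ p ∈ S ∧ X p ⌊γ * 2 ^ k p⌋₊ = 1}.Finite := by
  classical
  obtain ⟨N₁, hN₁⟩ : ∃ N₁, N₁ = N₀ + 2 := ⟨_, rfl⟩
  have hprob := hit_prob hε hC D
  rw [← hN₁] at hprob
  obtain ⟨B', hB'⟩ := hS
  set g : ℕ → ℝ := fun p => if p.Prime ∧ p ∈ S then Real.log p / p else 0 with hg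
  have hg0 : ∀ p, 0 ≤ g p := by
    intro p
    simp only [hg]
    split_ifs
    · exact div_nonneg (Real.log_natCast_nonneg p) (Nat.cast_nonneg p)
    · exact le_rfl
  have hgs : Summable g := by
    refine summable_of_sum_range_le hg0 (c := B') fun n => ?_
    refine le_trans ?_ (hB' n)
    unfold vv PS
    rw [Finset.sum_filter]
    refine Finset.sum_le_sum_of_subset_of_nonneg (Finset.range_mono (Nat.le_succ n)) fun p _ _ => hg0 p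
  set s : ℕ → Set ℝ := fun p => {γ : ℝ | 0 < γ ∧ γ < 1 ∧ p.Prime ∧ p ∈ S ∧ N₁ < p ∧ X p ⌊γ * 2 ^ k p⌋₊ = 1} with hs
  have hμ : ∀ p, volume (s p) ≤ ENNReal.ofReal (8 * C * g p) := by
    intro p
    by_cases h : p.Prime ∧ p ∈ S ∧ N₁ < p
    · have e : g p = Real.log p / p := by
        simp only [hg]
        rw [if_pos ⟨h.1, h.2.1⟩]
      rw [e]
      refine le_trans (measure_mono ?_) (hprob p h.2.2 h.1)
      rintro γ ⟨q1, q2, _, _, _, q3⟩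
      exact ⟨q1, q2, q3⟩
    · have : s p = ∅ := by
        rw [Set.eq_empty_iff_forall_notMem]
        rintro γ ⟨_, _, q1, q2, q3, _⟩
        exact h ⟨q1, q2, q3⟩
      rw [this, measure_empty]
      exact zero_le
  have hsum : ∑' p, volume (s p) ≠ ⊤ := by
    refine ne_top_of_le_ne_top ?_ (ENNReal.tsum_le_tsum hμ)
    rw [← ENNReal.ofReal_tsum_of_nonneg (fun p => mul_nonneg (by positivity) (hg0 p)) (hgs.mul_left (8 * C))]
    exact ENNReal.ofReal_ne_top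
  filter_upwards [ae_finite_setOf_mem hsum] with γ hγ h0 h1
  refine (hγ.union (Set.finite_le_nat N₁)).subset ?_
  rintro p ⟨q1, q2, q3⟩
  by_cases h : N₁ < p
  · exact Or.inl ⟨h0, h1, q1, q2, h, q3⟩
  · exact Or.inr (not_lt.1 h)

lemma scale (R : ℕ → ℝ → Prop) (h : ∀ m, ∀ᵐ γ : ℝ, 0 < γ → γ < 1 → R m γ) :
    ∀ᵐ γ : ℝ, ∀ m : ℕ, 0 < γ * (2 ^ m)⁻¹ → γ * (2 ^ m)⁻¹ < 1 → R m (γ * (2 ^ m)⁻¹) := by
  rw [ae_all_iff]
  intro m
  have h1 := h m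
  rw [ae_iff] at h1 ⊢
  have h2 := Real.volume_preimage_mul_right (a := ((2 : ℝ) ^ m)⁻¹) (by positivity)
    {γ : ℝ | ¬ (0 < γ → γ < 1 → R m γ)}
  rw [h1, mul_zero] at h2
  exact h2

lemma scale_floor (γ : ℝ) (m k : ℕ) : ⌊γ * (2 ^ m)⁻¹ * 2 ^ (k + m)⌋₊ = ⌊γ * 2 ^ k⌋₊ := by
  congr 1
  rw [pow_add]
  field_simp

/-- **the law for all positive `γ`**: the events for the digits with `m` more digits satisfy the conditions, for all `m` -/
theorem law (ε₀ c₀ C₀ : ℝ) (c₂ : ℕ) (hε₀ : 0 < ε₀) (hc₀ : 0 < c₀) (hC₀ : 0 < C₀) :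
    ∃ c C : ℝ, 0 < c ∧ 0 < C ∧ ∀ (X : ℕ → ℕ → ℝ) (k : ℕ → ℕ),
    (∀ m : ℕ, ∃ N₀ : ℕ, Sys X (fun p => k p + m) ε₀ c₀ C₀ c₂ N₀) → ∀ S : Set ℕ,
      ((∀ B : ℝ, ∃ n, B ≤ vv (PS S n)) → ∀ᵐ γ : ℝ, 0 < γ → ∀ᶠ n : ℕ in atTop,
        c * vv (PS S n) ≤ MM X k (PS S n) γ ∧ MM X k (PS S n) γ ≤ C * vv (PS S n)) ∧
      ((∃ B : ℝ, ∀ n, vv (PS S n) ≤ B) → ∀ᵐ γ : ℝ, 0 < γ →
        {p : ℕ | p.Prime ∧ p ∈ S ∧ X p ⌊γ * 2 ^ k p⌋₊ = 1}.Finite) := by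
  obtain ⟨c, C, hc, hC, hae⟩ := ae_bounds ε₀ c₀ C₀ c₂ hε₀ hc₀ hC₀
  refine ⟨c, C, hc, hC, fun X k hex S => ?_⟩
  have hm : ∀ γ : ℝ, 0 < γ → ∃ m : ℕ, 0 < γ * (2 ^ m)⁻¹ ∧ γ * (2 ^ m)⁻¹ < 1 := by
    intro γ hγ
    obtain ⟨m, hm⟩ := pow_unbounded_of_one_lt γ (one_lt_two (α := ℝ))
    refine ⟨m, by positivity, ?_⟩
    rw [← div_eq_mul_inv, div_lt_one (by positivity)]
    exact hm
  constructor
  · intro hS
    have h3 := scale (fun m γ => ∀ᶠ n : ℕ in atTop,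
        c * vv (PS S n) ≤ MM X (fun p => k p + m) (PS S n) γ ∧
        MM X (fun p => k p + m) (PS S n) γ ≤ C * vv (PS S n)) (fun m => by
      obtain ⟨N₀, D⟩ := hex m
      exact hae X (fun p => k p + m) N₀ D S hS)
    filter_upwards [h3] with γ hγ h0
    obtain ⟨m, hm1, hm2⟩ := hm γ h0
    have h4 := hγ m hm1 hm2
    have e : ∀ A, MM X (fun p => k p + m) A (γ * (2 ^ m)⁻¹) = MM X k A γ := by
      intro A
      unfold MM
      refine Finset.sum_congr rfl fun p _ => ?_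
      rw [scale_floor]
    simp only [e] at h4
    exact h4
  · intro hS
    have h3 := scale (fun m γ => {p : ℕ | p.Prime ∧ p ∈ S ∧ X p ⌊γ * 2 ^ (k p + m)⌋₊ = 1}.Finite) (fun m => by
      obtain ⟨N₀, D⟩ := hex m
      exact ae_finite hε₀.le hC₀ D S hS)
    filter_upwards [h3] with γ hγ h0
    obtain ⟨m, hm1, hm2⟩ := hm γ h0
    have h4 := hγ m hm1 hm2
    simp only [scale_floor] at h4
    exact h4

end Pool.Agent.T9h55.PG
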