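import Pool.Agent.T9h55.PF.G

/-! Upper bounds for the number of integers `m` for which one or two linear forms have no prime factors between `2 x` and
`2 ^ (η x)` (helper55). -/

set_option autoImplicit false

namespace Pool.Agent.T9h55.PG

open Finset Filter
open Pool.Agent.N441.SH (cc cc_lt cc_iff)
open Pool.Agent.N176.OW.TU2 (card_image_ge sum_primes)

/-- coincidence of classes -/
lemma coincH {s s' w l : ℕ} {o o' : ℤ} (hl : 0 < l) (hs : Nat.Coprime s l) (hs' : Nat.Coprime s' l)
    (heq : cc s w o l = cc s' w o' l) : (l : ℤ) ∣ (s : ℤ) * o' - (s' : ℤ) * o := by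
  obtain ⟨n, hn⟩ : ∃ n, n = cc s w o l + l := ⟨_, rfl⟩
  have hlt := cc_lt (a := s) (s := w) (e := o) hl
  have hn1 : n % l = cc s w o l := by
    rw [hn, Nat.add_mod_right, Nat.mod_eq_of_lt hlt]
  have hn0 : 1 ≤ n := by omega
  have d1 := (cc_iff hl hs hn0).2 hn1
  have d2 := (cc_iff hl hs' hn0).2 (hn1.trans heq)
  have e1 : (s : ℤ) * o' - (s' : ℤ) * o =
      (s : ℤ) * ((s' : ℤ) * ((n + w - 1 : ℕ) : ℤ) + o') -
        (s' : ℤ) * ((s : ℤ) * ((n + w - 1 : ℕ) : ℤ) + o) := by
    ring
  rw [e1]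
  exact dvd_sub (d2.mul_left _) (d1.mul_left _)

open Classical in
/-- **the sieve bound for at most two forms** -/
theorem sieveH (c D η : ℝ) (hc : 0 < c) (hD : 0 ≤ D) (hη : 0 < η) : ∃ C : ℝ, 1 ≤ C ∧ ∃ P : ℕ, ∀ x ≥ P,
    ∀ (F : Finset ℕ) (s e : ℕ → ℕ) (E : ℕ), 1 ≤ #F → #F ≤ 2 →
    c * x ≤ E → (E : ℝ) ≤ D * x → (∀ i ∈ F, ∀ l : ℕ, l.Prime → 2 * x < l → Nat.Coprime (s i) l) →
    (∀ i ∈ F, ∀ j ∈ F, (s i : ℝ) * e j ≤ (2 : ℝ) ^ (D * x)) →
    (∀ i ∈ F, ∀ j ∈ F, i < j → s i * e j ≠ s j * e i) →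
    (#((range (2 ^ E)).filter (fun m => ∀ i ∈ F, ∀ l : ℕ, l.Prime → 2 * x < l → (l : ℝ) ≤ (2 : ℝ) ^ (η * x) →
      ¬ l ∣ s i * m + e i)) : ℝ) ≤ (C * (Real.log x / x)) ^ #F * (2 : ℝ) ^ E := by
  obtain ⟨C0, hC0, hSV⟩ := Pool.Agent.N136.OW.sv2 Pool.Agent.N75.OW.sg
  obtain ⟨D₁, hD₁, hSV⟩ := hSV (max (max C0 16) (D / η)) ((le_max_left _ _).trans (le_max_left _ _))
  set C₁ : ℝ := max (max C0 16) (D / η) with hC₁
  have hC₁16 : 16 ≤ C₁ := (le_max_right _ _).trans (le_max_left _ _)
  have hC₁D : D ≤ C₁ * η := by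
    have : D / η ≤ C₁ := le_max_right _ _
    rwa [div_le_iff₀ hη] at this
  have hl2 : 0 < Real.log 2 := Real.log_pos (by norm_num)
  -- the logarithm is small
  have hlo : (fun x : ℝ => Real.log x) =o[atTop] fun x : ℝ => x := Real.isLittleO_log_id_atTop
  have hlo2 := hlo.bound (c := c * Real.log 2 / (4 * C₁)) (by positivity)
  obtain ⟨x1, hx1⟩ := eventually_atTop.1 ((tendsto_natCast_atTop_atTop (R := ℝ)).eventually hlo2)
  set K : ℝ := D₁ * Real.exp (2 * (2 * D * Real.log 2 + 1)) * (4 / (c * Real.log 2)) with hK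
  have hexp1 : 1 ≤ Real.exp (2 * (2 * D * Real.log 2 + 1)) := Real.one_le_exp (by positivity)
  have hK0 : 0 ≤ K := by positivity
  refine ⟨max 1 K, le_max_left _ _, max x1 16, fun x hx F s e E hF1 hF2 hE hED hcops hse hnd => ?_⟩
  have hx16 : 16 ≤ x := (le_max_right _ _).trans hx
  have hxR : (16 : ℝ) ≤ x := by exact_mod_cast hx16
  have hx0 : (0 : ℝ) < x := by linarith
  have hlx1 : 1 ≤ Real.log x := by
    rw [Real.le_log_iff_exp_le hx0]
    linarith [Real.exp_one_lt_d9]
  have hlx : 0 < Real.log x := by linarith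
  have hxl : Real.log x ≤ c * Real.log 2 / (4 * C₁) * x := by
    have h3 := hx1 x ((le_max_left _ _).trans hx)
    rw [Real.norm_eq_abs, Real.norm_eq_abs, abs_of_nonneg hlx.le, abs_of_nonneg hx0.le] at h3
    exact h3
  obtain ⟨k, hkd⟩ : ∃ k, k = #F := ⟨_, rfl⟩
  rw [← hkd] at hF1 hF2 ⊢
  have hk1R : (1 : ℝ) ≤ k := by exact_mod_cast hF1
  have hk2R : (k : ℝ) ≤ 2 := by exact_mod_cast hF2
  have hlN : Real.log ((2 ^ E : ℕ) : ℝ) = E * Real.log 2 := by
    push_cast
    rw [Real.log_pow]
  have hE0 : 0 < (E : ℝ) := lt_of_lt_of_le (by positivity) hE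
  have hlog2x : Real.log ((2 * x : ℕ) : ℝ) ≤ 2 * Real.log x := by
    push_cast
    rw [two_mul (Real.log (x : ℝ)), ← Real.log_mul (by linarith) (by linarith)]
    exact Real.log_le_log (by linarith) (by nlinarith)
  have hlog2x' : Real.log x ≤ Real.log ((2 * x : ℕ) : ℝ) := by
    push_cast
    exact Real.log_le_log (by linarith) (by linarith)
  have hlog2x0 : 0 < Real.log ((2 * x : ℕ) : ℝ) := by linarith
  -- the classes
  obtain ⟨f, hf⟩ : ∃ f : ℕ → ℕ → ℕ, f = fun l i => cc (s i) 0 (e i : ℤ) l := ⟨_, rfl⟩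
  obtain ⟨A, hA⟩ : ∃ A : Finset ℕ, A = ((range (2 ^ E)).filter
    (fun m => ∀ i ∈ F, ∀ l : ℕ, l.Prime → 2 * x < l → (l : ℝ) ≤ (2 : ℝ) ^ (η * x) →
      ¬ l ∣ s i * m + e i)).image (fun m => m + 1) := ⟨_, rfl⟩
  have hAcard : #((range (2 ^ E)).filter (fun m => ∀ i ∈ F, ∀ l : ℕ, l.Prime → 2 * x < l →
      (l : ℝ) ≤ (2 : ℝ) ^ (η * x) → ¬ l ∣ s i * m + e i)) = #A := by
    rw [hA, Finset.card_image_of_injective]
    intro a b hab
    simpa using hab
  have hmain := hSV k (2 ^ E) (2 * x) (2 * (2 * D * Real.log 2 + 1)) (fun l => F.image (f l)) A hF1 (by omega)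
    (by nlinarith)
    (by
      rw [hlN]
      calc C₁ * k * Real.log ((2 * x : ℕ) : ℝ) ≤ C₁ * 2 * (2 * Real.log x) := by gcongr
        _ = 4 * C₁ * Real.log x := by ring
        _ ≤ 4 * C₁ * (c * Real.log 2 / (4 * C₁) * x) := mul_le_mul_of_nonneg_left hxl (by positivity)
        _ = c * x * Real.log 2 := by field_simp
        _ ≤ E * Real.log 2 := mul_le_mul_of_nonneg_right hE hl2.le)
    (by
      intro n hn
      rw [hA, mem_image] at hn
      obtain ⟨m, hm, rfl⟩ := hn
      rw [mem_filter, mem_range] at hm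
      rw [mem_Icc]
      omega)
    (by
      intro l hl hlx
      refine ⟨fun c hc => ?_, ?_⟩
      · rw [mem_image] at hc
        obtain ⟨i, _, rfl⟩ := hc
        rw [mem_range, hf]
        exact cc_lt hl.pos
      · rw [hkd]
        exact Finset.card_image_le)
    (by
      intro n hn l hl hlx hsmall hmem
      rw [mem_image] at hmem
      obtain ⟨i, hi, hcl⟩ := hmem
      rw [hA, mem_image] at hn
      obtain ⟨m, hm, rfl⟩ := hn
      rw [mem_filter, mem_range] at hm
      rw [hf] at hcl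
      have hd := (cc_iff hl.pos (hcops i hi l hl hlx) (by omega : 1 ≤ m + 1)).2 hcl.symm
      have hd' : l ∣ s i * m + e i := by
        have e1 : m + 1 + 0 - 1 = m := by omega
        rw [e1] at hd
        exact_mod_cast hd
      refine hm.2 i hi l hl hlx ?_ hd'
      -- `l` is small
      have hlR : (0 : ℝ) < l := by exact_mod_cast hl.pos
      have hll : 0 ≤ Real.log l := Real.log_nonneg (by exact_mod_cast hl.one_lt.le)
      rw [hlN] at hsmall
      have h6 : C₁ * Real.log l ≤ C₁ * (η * x * Real.log 2) := by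
        calc C₁ * Real.log l ≤ C₁ * k * Real.log l := by
              refine mul_le_mul_of_nonneg_right ?_ hll
              nlinarith
          _ ≤ E * Real.log 2 := hsmall
          _ ≤ D * x * Real.log 2 := mul_le_mul_of_nonneg_right hED hl2.le
          _ ≤ C₁ * η * x * Real.log 2 := by gcongr
          _ = _ := by ring
      have h7 : Real.log l ≤ η * x * Real.log 2 := le_of_mul_le_mul_left h6 (by linarith)
      rw [← Real.log_le_log_iff hlR (by positivity), Real.log_rpow (by norm_num)]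
      exact h7)
    (by
      -- the density
      have step : ∀ l ∈ (Ioc (2 * x) (2 ^ E)).filter Nat.Prime,
          ((k : ℝ) - ((F.image (f l)).card : ℝ)) / l ≤
          ∑ j ∈ F, ∑ i ∈ F.filter (fun i => i < j),
            if l ∣ ((s i : ℤ) * e j - (s j : ℤ) * e i).natAbs then 1 / (l : ℝ) else 0 := by
        intro l hl
        rw [mem_filter, mem_Ioc] at hl
        have lR : (0 : ℝ) < l := by exact_mod_cast hl.2.pos
        have h1 := card_image_ge F (f l)
        rw [← hkd] at h1
        have h2 : ((k : ℝ) - ((F.image (f l)).card : ℝ)) ≤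
            ((F.filter (fun q => ∃ p ∈ F, p < q ∧ f l p = f l q)).card : ℝ) := by
          rw [sub_le_iff_le_add']
          exact_mod_cast h1
        rw [div_le_iff₀ lR]
        refine h2.trans ?_
        rw [Finset.card_eq_sum_ones, Nat.cast_sum, Finset.sum_filter, Finset.sum_mul]
        refine Finset.sum_le_sum fun q hq => ?_
        rw [Finset.sum_mul]
        have hnn : ∀ i ∈ F.filter (fun i => i < q), 0 ≤
            (if l ∣ ((s i : ℤ) * e q - (s q : ℤ) * e i).natAbs then 1 / (l : ℝ) else 0) * l := by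
          intro p _
          split_ifs
          · positivity
          · rw [zero_mul]
        split_ifs with h3
        · obtain ⟨i, hi, hpq, hfe⟩ := h3
          rw [hf] at hfe
          have hd : l ∣ ((s i : ℤ) * e q - (s q : ℤ) * e i).natAbs :=
            Int.natCast_dvd.1 (coincH hl.2.pos (hcops i hi l hl.2 hl.1.1) (hcops q hq l hl.2 hl.1.1) hfe)
          refine le_trans ?_ (Finset.single_le_sum hnn (mem_filter.2 ⟨hi, hpq⟩))
          rw [if_pos hd]
          rw [Nat.cast_one, one_div, inv_mul_cancel₀ lR.ne']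
        · exact Finset.sum_nonneg hnn
      refine (Finset.sum_le_sum step).trans ?_
      rw [Finset.sum_comm]
      have inner : ∀ j ∈ F, ∑ l ∈ (Ioc (2 * x) (2 ^ E)).filter Nat.Prime,
          ∑ i ∈ F.filter (fun i => i < j),
            (if l ∣ ((s i : ℤ) * e j - (s j : ℤ) * e i).natAbs then 1 / (l : ℝ) else 0) ≤
          (2 * D * Real.log 2 + 1) := by
        intro j hj
        rw [Finset.sum_comm]
        have h1 : ∀ i ∈ F.filter (fun i => i < j), ∑ l ∈ (Ioc (2 * x) (2 ^ E)).filter Nat.Prime,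
            (if l ∣ ((s i : ℤ) * e j - (s j : ℤ) * e i).natAbs then 1 / (l : ℝ) else 0) ≤
            (2 * D * Real.log 2 + 1) / 2 := by
          intro i hi
          rw [mem_filter] at hi
          have q4 := hse i hi.1 j hj
          have r4 := hse j hj i hi.1
          rw [← Finset.sum_filter]
          have hD0 : ((s i : ℤ) * e j - (s j : ℤ) * e i).natAbs ≠ 0 := by
            rw [Int.natAbs_ne_zero]
            refine sub_ne_zero.2 fun h6 => hnd i hi.1 j hj hi.2 ?_
            exact_mod_cast h6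
          have hDle : ((((s i : ℤ) * e j - (s j : ℤ) * e i).natAbs : ℕ) : ℝ) ≤
              2 * (2 : ℝ) ^ (D * x) := by
            have w1 : ((((s i : ℤ) * e j - (s j : ℤ) * e i).natAbs : ℕ) : ℝ) =
                |(s i : ℝ) * e j - (s j : ℝ) * e i| := by
              rw [Nat.cast_natAbs]
              push_cast
              rfl
            rw [w1]
            refine (abs_sub _ _).trans ?_
            rw [abs_of_nonneg (by positivity), abs_of_nonneg (by positivity)]
            linarith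
          have h7 := sum_primes (y := 2 * x) (N := 2 ^ E)
            (D := ((s i : ℤ) * e j - (s j : ℤ) * e i).natAbs)
            (X := (D * x + 1) * Real.log 2) (by omega) (Nat.pos_of_ne_zero hD0) (by
              have h8 := Real.log_le_log (by exact_mod_cast Nat.pos_of_ne_zero hD0) hDle
              rw [Real.log_mul (by norm_num) (by positivity), Real.log_rpow (by norm_num)] at h8
              linarith)
          refine h7.trans ?_
          rw [div_le_div_iff₀ (by positivity) (by norm_num)]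
          push_cast at hlog2x' ⊢
          have h9 : (D * x + 1) * Real.log 2 * 2 ≤ (2 * D * Real.log 2 + 1) * (2 * x) := by
            have : Real.log 2 ≤ 1 := by linarith [Real.log_two_lt_d9]
            have h10 : 0 ≤ D * x * Real.log 2 := by positivity
            nlinarith
          have h10 : (0 : ℝ) ≤ (2 * D * Real.log 2 + 1) * (2 * x) := by positivity
          have h11 : 1 ≤ Real.log (2 * (x : ℝ)) := hlx1.trans hlog2x'
          nlinarith
        refine (Finset.sum_le_sum h1).trans ?_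
        rw [Finset.sum_const, nsmul_eq_mul]
        have h2 : ((F.filter (fun i => i < j)).card : ℝ) ≤ 2 := by
          refine le_trans ?_ hk2R
          rw [hkd]
          exact_mod_cast Finset.card_le_card (Finset.filter_subset _ _)
        have h3 : 0 ≤ (2 * D * Real.log 2 + 1) / 2 := by positivity
        nlinarith
      refine (Finset.sum_le_sum inner).trans ?_
      rw [Finset.sum_const, nsmul_eq_mul, ← hkd]
      exact mul_le_mul_of_nonneg_right hk2R (by positivity))
  rw [hAcard]
  refine hmain.trans ?_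
  have hfrac : (k : ℝ) * Real.log ((2 * x : ℕ) : ℝ) / Real.log ((2 ^ E : ℕ) : ℝ) ≤
      4 / (c * Real.log 2) * (Real.log x / x) := by
    rw [hlN, div_le_iff₀ (by positivity)]
    have h1 : 4 / (c * Real.log 2) * (Real.log x / x) * (E * Real.log 2) =
        (2 * (2 * Real.log x)) * (E / (c * x)) := by
      field_simp
      ring
    rw [h1]
    have h2 : 1 ≤ (E : ℝ) / (c * x) := by
      rw [le_div_iff₀ (by positivity)]
      linarith
    calc (k : ℝ) * Real.log ((2 * x : ℕ) : ℝ) ≤ 2 * (2 * Real.log x) * 1 := by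
          rw [mul_one]
          gcongr
      _ ≤ 2 * (2 * Real.log x) * (E / (c * x)) := by gcongr
  have hfr0 : 0 ≤ (k : ℝ) * Real.log ((2 * x : ℕ) : ℝ) / Real.log ((2 ^ E : ℕ) : ℝ) := by
    rw [hlN]
    positivity
  have hexpk : Real.exp (2 * (2 * D * Real.log 2 + 1)) ≤ Real.exp (2 * (2 * D * Real.log 2 + 1)) ^ k :=
    le_self_pow₀ hexp1 (by omega)
  calc D₁ ^ k * Real.exp (2 * (2 * D * Real.log 2 + 1)) *
        (k * Real.log ((2 * x : ℕ) : ℝ) / Real.log ((2 ^ E : ℕ) : ℝ)) ^ k * ((2 ^ E : ℕ) : ℝ)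
      ≤ D₁ ^ k * Real.exp (2 * (2 * D * Real.log 2 + 1)) ^ k * (4 / (c * Real.log 2) * (Real.log x / x)) ^ k *
          ((2 ^ E : ℕ) : ℝ) := by
        gcongr
    _ = (K * (Real.log x / x)) ^ k * (2 : ℝ) ^ E := by
        rw [← mul_pow, ← mul_pow, hK]
        push_cast
        congr 2
        ring
    _ ≤ (max 1 K * (Real.log x / x)) ^ k * (2 : ℝ) ^ E := by
        gcongr
        exact le_max_right _ _

end Pool.Agent.T9h55.PG
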