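import Pool.Agent.T9h55.PG.Ap
import Pool.Agent.T9h55.PG.Fi
import Pool.Agent.T9h55.PF.Ins

/-! Sequences of the size of the Fibonacci numbers: almost primes (helper55). -/

set_option autoImplicit false

namespace Pool.Agent.T9h55.PG

open Finset Filter Topology
open Real (goldenRatio)
open Pool.Agent.T9h55.PF (logb_gt logb_lt two_pow_logb)

/-- a geometric sum over the distances -/
lemma geo_r {r : ℝ} (h0 : 0 ≤ r) (h1 : r < 1) (T : Finset ℕ) (p : ℕ) :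
    ∑ q ∈ T, r ^ ((p - q) + (q - p)) ≤ 2 / (1 - r) := by
  have hs := summable_geometric_of_lt_one h0 h1
  have hgeo : ∀ F : Finset ℕ, ∑ d ∈ F, r ^ d ≤ 1 / (1 - r) := by
    intro F
    calc ∑ d ∈ F, r ^ d ≤ ∑' d : ℕ, r ^ d := hs.sum_le_tsum F (fun _ _ => by positivity)
      _ = 1 / (1 - r) := by rw [tsum_geometric_of_lt_one h0 h1, one_div]
  rw [← Finset.sum_filter_add_sum_filter_not T (fun q => p ≤ q)]
  have g1 : ∑ q ∈ T.filter (fun q => p ≤ q), r ^ ((p - q) + (q - p)) ≤ 1 / (1 - r) := by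
    have hinj : Set.InjOn (fun q => q - p) (T.filter (fun q => p ≤ q) : Set ℕ) := by
      intro x hx y hy hxy
      rw [Finset.mem_coe, mem_filter] at hx hy
      have : x - p = y - p := hxy
      omega
    calc _ = ∑ q ∈ T.filter (fun q => p ≤ q), r ^ (q - p) := by
          refine Finset.sum_congr rfl fun q hq => ?_
          rw [mem_filter] at hq
          congr 1
          omega
      _ = ∑ d ∈ (T.filter (fun q => p ≤ q)).image (fun q => q - p), r ^ d := by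
          rw [Finset.sum_image hinj]
      _ ≤ _ := hgeo _
  have g2 : ∑ q ∈ T.filter (fun q => ¬ p ≤ q), r ^ ((p - q) + (q - p)) ≤ 1 / (1 - r) := by
    have hinj : Set.InjOn (fun q => p - q) (T.filter (fun q => ¬ p ≤ q) : Set ℕ) := by
      intro x hx y hy hxy
      rw [Finset.mem_coe, mem_filter] at hx hy
      have : p - x = p - y := hxy
      omega
    calc _ = ∑ q ∈ T.filter (fun q => ¬ p ≤ q), r ^ (p - q) := by
          refine Finset.sum_congr rfl fun q hq => ?_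
          rw [mem_filter] at hq
          congr 1
          omega
      _ = ∑ d ∈ (T.filter (fun q => ¬ p ≤ q)).image (fun q => p - q), r ^ d := by
          rw [Finset.sum_image hinj]
      _ ≤ _ := hgeo _
  have : 2 / (1 - r) = 1 / (1 - r) + 1 / (1 - r) := by ring
  linarith

/-- the number of digits -/
noncomputable def k2 (θ : ℝ) (p : ℕ) : ℕ := ⌊θ / 2 * (p * Real.logb 2 goldenRatio)⌋₊

/-- the modulus -/
noncomputable def M2 (θ : ℝ) (p : ℕ) : ℕ := Nat.lcmUpto ⌊θ / 50 * p⌋₊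

lemma M2_fac (θ : ℝ) (p : ℕ) {l : ℕ} (hl : l.Prime) : l ∣ M2 θ p ↔ l ≤ ⌊θ / 50 * (p : ℝ)⌋₊ := by
  unfold M2 Nat.lcmUpto
  constructor
  · intro h
    by_contra hcon
    rw [not_le] at hcon
    have h1 : l ∣ (⌊θ / 50 * (p : ℝ)⌋₊).factorial := h.trans (Nat.lcmUpto_dvd_factorial _)
    have := (hl.dvd_factorial).1 h1
    omega
  · intro h
    exact Finset.dvd_lcm (f := id) (mem_Icc.2 ⟨hl.one_lt.le, h⟩)

lemma M2_size {θ : ℝ} (hθ : 0 < θ) (p : ℕ) : (M2 θ p : ℝ) ≤ goldenRatio ^ (θ / 4 * p) := by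
  have h1 := Chebyshev.psi_eq_log_lcmUpto ⌊θ / 50 * (p : ℝ)⌋₊
  have h2 := Chebyshev.psi_le_const_mul_self (x := ((⌊θ / 50 * (p : ℝ)⌋₊ : ℕ) : ℝ)) (Nat.cast_nonneg _)
  rw [h1] at h2
  have hφ0 := Real.goldenRatio_pos
  have hpos : (0 : ℝ) < (M2 θ p : ℝ) := by
    have : 0 < M2 θ p := Nat.lcmUpto_pos _
    exact_mod_cast this
  rw [← Real.log_le_log_iff hpos (by positivity), Real.log_rpow hφ0]
  have h3 : ((⌊θ / 50 * (p : ℝ)⌋₊ : ℕ) : ℝ) ≤ θ / 50 * p := Nat.floor_le (by positivity)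
  have h4 : Real.log 4 = 2 * Real.log 2 := by
    rw [show (4 : ℝ) = 2 ^ 2 by norm_num, Real.log_pow]
    norm_num
  have h5 := Real.log_two_gt_d9
  have h6 := Real.log_two_lt_d9
  have h7 : 0.478 ≤ Real.log goldenRatio := by
    have h8 : Real.log goldenRatio = Real.logb 2 goldenRatio * Real.log 2 := by
      unfold Real.logb
      field_simp
    rw [h8]
    have := logb_gt
    nlinarith
  have hp0 : (0 : ℝ) ≤ p := Nat.cast_nonneg p
  calc Real.log (M2 θ p) ≤ (Real.log 4 + 4) * ((⌊θ / 50 * (p : ℝ)⌋₊ : ℕ) : ℝ) := h2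
    _ ≤ 5.4 * (θ / 50 * p) := by
        refine mul_le_mul (by rw [h4]; linarith) h3 (Nat.cast_nonneg _) (by norm_num)
    _ = 0.432 * (θ / 4 * p) := by ring
    _ ≤ 0.478 * (θ / 4 * p) := by
        refine mul_le_mul_of_nonneg_right (by norm_num) (by positivity)
    _ ≤ Real.log goldenRatio * (θ / 4 * p) := mul_le_mul_of_nonneg_right h7 (by positivity)
    _ = _ := by ring

/-- the constant of the geometric sums -/
noncomputable def Cg (θ : ℝ) : ℝ := 4 / (1 - (2 : ℝ) ^ (-(θ / 2 * Real.logb 2 goldenRatio)))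

lemma r_lt {θ : ℝ} (hθ : 0 < θ) : (2 : ℝ) ^ (-(θ / 2 * Real.logb 2 goldenRatio)) < 1 := by
  have h1 := logb_gt
  have h2 : 0 < θ / 2 * Real.logb 2 goldenRatio := mul_pos (by linarith) (by linarith)
  exact Real.rpow_lt_one_of_one_lt_of_neg (by norm_num) (by linarith)

lemma Cg_pos {θ : ℝ} (hθ : 0 < θ) : 0 < Cg θ := by
  unfold Cg
  have := r_lt hθ
  exact div_pos (by norm_num) (by linarith)

theorem ad (a : ℕ → ℕ) (K : ℝ)
    (ha : ∀ᶠ n : ℕ in atTop, goldenRatio ^ n ≤ K * a n ∧ (a n : ℝ) ≤ K * goldenRatio ^ n)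
    (har : ∀ᶠ p : ℕ in atTop, p.Prime → ∀ q : ℕ, q.Prime → q ∣ a p → p < q) (θ : ℝ) (hθ : 0 < θ) (hθ1 : θ < 1)
    (m : ℕ) : ∃ N₀ : ℕ, AD a (M2 θ) (fun p => k2 θ p + m) (fun p => ⌊θ / 50 * (p : ℝ)⌋₊)
      (θ * Real.logb 2 goldenRatio / 4) (θ / 100) 1 (Cg θ) 1 N₀ := by
  obtain ⟨ρ, hρ⟩ : ∃ ρ, ρ = Real.logb 2 goldenRatio := ⟨_, rfl⟩
  have hρ1 : 0.69 < ρ := by rw [hρ]; exact logb_gt
  have hρ2 : ρ < 1 := by rw [hρ]; exact logb_lt
  have hρ0 : 0 < ρ := by linarith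
  have hφ0 := Real.goldenRatio_pos
  have hφ1 := Real.one_lt_goldenRatio
  have hφ2 := Real.goldenRatio_lt_two
  rw [eventually_atTop] at ha har
  obtain ⟨n0, hn0⟩ := ha
  obtain ⟨n1, hn1⟩ := har
  have hfl : ∀ p : ℕ, θ / 2 * (p * ρ) - 1 < k2 θ p ∧ (k2 θ p : ℝ) ≤ θ / 2 * (p * ρ) := by
    intro p
    unfold k2
    rw [← hρ]
    exact ⟨Nat.sub_one_lt_floor _, Nat.floor_le (by positivity)⟩
  have hm0 : (0 : ℝ) ≤ m := Nat.cast_nonneg m
  obtain ⟨n2, hn2⟩ := exists_nat_gt (4 / (θ * ρ))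
  obtain ⟨n3, hn3⟩ := exists_nat_gt ((m : ℝ) * 2)
  obtain ⟨n4, hn4⟩ := exists_nat_gt (100 / θ)
  -- `K φ ^ n ≤ 2 ^ n`
  obtain ⟨n5, hn5⟩ : ∃ n5 : ℕ, ∀ p ≥ n5, K * goldenRatio ^ p ≤ (2 : ℝ) ^ p := by
    have h1 : Tendsto (fun n : ℕ => (2 / goldenRatio) ^ n) atTop atTop :=
      tendsto_pow_atTop_atTop_of_one_lt ((one_lt_div hφ0).2 hφ2)
    obtain ⟨n5, hn5⟩ := eventually_atTop.1 (h1.eventually_ge_atTop K)
    refine ⟨n5, fun p hp => ?_⟩
    have h2 := hn5 p hp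
    rw [div_pow, le_div_iff₀ (by positivity)] at h2
    exact h2
  refine ⟨max (max (max n0 n1) (max n2 n3)) (max n4 n5), ?_⟩
  have g0 : ∀ p ≥ max (max (max n0 n1) (max n2 n3)) (max n4 n5),
      n0 ≤ p ∧ n1 ≤ p ∧ n2 ≤ p ∧ n3 ≤ p ∧ n4 ≤ p ∧ n5 ≤ p := by
    intro p hp
    simp only [ge_iff_le, max_le_iff] at hp
    obtain ⟨⟨⟨h1, h2⟩, h3, h4⟩, h5, h6⟩ := hp
    exact ⟨h1, h2, h3, h4, h5, h6⟩
  constructor
  · intro p hp _
    obtain ⟨_, _, h3, _⟩ := g0 p hp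
    have h3r : (n2 : ℝ) ≤ p := by exact_mod_cast h3
    have h1 := (hfl p).1
    rw [← hρ]
    push_cast
    have h4 : 4 / (θ * ρ) < p := hn2.trans_le h3r
    rw [div_lt_iff₀ (by positivity)] at h4
    nlinarith
  · intro p hp _
    obtain ⟨_, _, _, h4, _⟩ := g0 p hp
    have h4r : (n3 : ℝ) ≤ p := by exact_mod_cast h4
    have h1 := (hfl p).2
    have h5 : ((k2 θ p + m : ℕ) : ℝ) ≤ p := by
      push_cast
      have h6 : θ / 2 * (p * ρ) ≤ 1 / 2 * p := by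
        have hp0 : (0 : ℝ) ≤ p := Nat.cast_nonneg _
        have h7 : θ * ρ ≤ 1 := by nlinarith
        nlinarith
      linarith
    rw [one_mul]
    exact_mod_cast h5
  · intro p _ q hq _ _
    refine Nat.add_le_add_right ?_ m
    unfold k2
    refine Nat.floor_le_floor ?_
    rw [← hρ]
    have : (p : ℝ) ≤ q := by exact_mod_cast hq
    gcongr
  · intro p _ _ T _
    obtain ⟨r, hr⟩ : ∃ r, r = (2 : ℝ) ^ (-(θ / 2 * ρ)) := ⟨_, rfl⟩
    have hr0 : 0 < r := by rw [hr]; positivity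
    have hr1 : r < 1 := by
      rw [hr, hρ]
      exact r_lt hθ
    have hterm : ∀ q ∈ T, ((2 : ℝ) ^ ((k2 θ p + m - (k2 θ q + m)) + (k2 θ q + m - (k2 θ p + m))))⁻¹ ≤
        2 * r ^ ((p - q) + (q - p)) := by
      intro q _
      have e1 : (k2 θ p + m - (k2 θ q + m)) + (k2 θ q + m - (k2 θ p + m)) =
          (k2 θ p - k2 θ q) + (k2 θ q - k2 θ p) := by omega
      rw [e1]
      have e2 : ∀ u v : ℕ, (((u - v) + (v - u) : ℕ) : ℝ) = |(u : ℝ) - v| := by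
        intro u v
        rcases le_total u v with h | h
        · rw [Nat.sub_eq_zero_of_le h, zero_add, Nat.cast_sub h, abs_sub_comm, abs_of_nonneg]
          have : (u : ℝ) ≤ v := by exact_mod_cast h
          linarith
        · rw [Nat.sub_eq_zero_of_le h, add_zero, Nat.cast_sub h, abs_of_nonneg]
          have : (v : ℝ) ≤ u := by exact_mod_cast h
          linarith
      have e3 : θ / 2 * ρ * |(p : ℝ) - q| - 1 ≤ |(k2 θ p : ℝ) - k2 θ q| := by
        obtain ⟨a1, a2⟩ := hfl p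
        obtain ⟨b1, b2⟩ := hfl q
        rcases le_total (q : ℝ) p with h | h
        · rw [abs_of_nonneg (by linarith : (0 : ℝ) ≤ (p : ℝ) - q)]
          refine le_trans ?_ (le_abs_self _)
          nlinarith
        · rw [abs_sub_comm (p : ℝ) q, abs_of_nonneg (by linarith : (0 : ℝ) ≤ (q : ℝ) - p), abs_sub_comm]
          refine le_trans ?_ (le_abs_self _)
          nlinarith
      have e4 : ((2 : ℝ) ^ ((k2 θ p - k2 θ q) + (k2 θ q - k2 θ p)))⁻¹ = (2 : ℝ) ^ (-|(k2 θ p : ℝ) - k2 θ q|) := by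
        rw [Real.rpow_neg (by norm_num), ← e2, Real.rpow_natCast]
      have e5 : 2 * r ^ ((p - q) + (q - p)) = (2 : ℝ) ^ (1 - θ / 2 * ρ * |(p : ℝ) - q|) := by
        have e6 : (1 : ℝ) - θ / 2 * ρ * |(p : ℝ) - q| = 1 + -(θ / 2 * ρ) * |(p : ℝ) - q| := by ring
        rw [← Real.rpow_natCast r, e2, hr, ← Real.rpow_mul (by norm_num), e6,
          Real.rpow_add (by norm_num), Real.rpow_one]
      rw [e4, e5]
      exact Real.rpow_le_rpow_of_exponent_le (by norm_num) (by linarith)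
    refine (Finset.sum_le_sum hterm).trans ?_
    rw [← Finset.mul_sum]
    have h1 := geo_r hr0.le hr1 T p
    unfold Cg
    rw [← hρ, ← hr]
    calc 2 * ∑ q ∈ T, r ^ ((p - q) + (q - p)) ≤ 2 * (2 / (1 - r)) := by linarith
      _ = _ := by ring
  · intro p _ _ l hl
    exact M2_fac θ p hl
  · intro p _ _
    exact Nat.lcmUpto_pos _
  · intro p hp _
    obtain ⟨_, _, _, _, h5, _⟩ := g0 p hp
    have h5r : (n4 : ℝ) ≤ p := by exact_mod_cast h5
    have h6 : 100 / θ < p := hn4.trans_le h5r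
    rw [div_lt_iff₀ hθ] at h6
    have h7 := Nat.sub_one_lt_floor (θ / 50 * (p : ℝ))
    have h8 : θ / 100 * (p : ℝ) ≤ θ / 50 * p - 1 := by linarith
    linarith
  · intro p _ _
    have h1 : ((⌊θ / 50 * (p : ℝ)⌋₊ : ℕ) : ℝ) ≤ θ / 50 * p := Nat.floor_le (by positivity)
    have hp0 : (0 : ℝ) ≤ p := Nat.cast_nonneg _
    have h2 : ((⌊θ / 50 * (p : ℝ)⌋₊ : ℕ) : ℝ) ≤ p := by nlinarith
    exact_mod_cast h2
  · intro p hp hpp
    obtain ⟨_, h2, _⟩ := g0 p hp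
    rw [Nat.coprime_iff_gcd_eq_one]
    by_contra hcon
    obtain ⟨q, hq, hd⟩ := Nat.exists_prime_and_dvd hcon
    have h3 := hn1 p h2 hpp q hq (hd.trans (Nat.gcd_dvd_left _ _))
    have h4 := (M2_fac θ p hq).1 (hd.trans (Nat.gcd_dvd_right _ _))
    have h5 : ((⌊θ / 50 * (p : ℝ)⌋₊ : ℕ) : ℝ) ≤ θ / 50 * p := Nat.floor_le (by positivity)
    have hp0 : (0 : ℝ) ≤ p := Nat.cast_nonneg _
    have h6 : ((⌊θ / 50 * (p : ℝ)⌋₊ : ℕ) : ℝ) ≤ p := by nlinarith
    have h7 : ⌊θ / 50 * (p : ℝ)⌋₊ ≤ p := by exact_mod_cast h6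
    omega
  · intro p hp _
    obtain ⟨h1, _, _, _, _, h6⟩ := g0 p hp
    rw [one_mul, Real.rpow_natCast]
    exact (hn0 p h1).2.trans (hn5 p h6)
  · intro p _ _
    refine (M2_size hθ p).trans ?_
    rw [one_mul]
    calc goldenRatio ^ (θ / 4 * p) ≤ (2 : ℝ) ^ (θ / 4 * p) :=
          Real.rpow_le_rpow hφ0.le hφ2.le (by positivity)
      _ ≤ (2 : ℝ) ^ (p : ℝ) := by
          refine Real.rpow_le_rpow_of_exponent_le (by norm_num) ?_
          have hp0 : (0 : ℝ) ≤ p := Nat.cast_nonneg _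
          nlinarith

end Pool.Agent.T9h55.PG
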